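import Pool.Agent.Lib.MP_7470ba_co.Flip

/-!
# The boundary of the 4-simplex is a 3-sphere
-/

namespace Pool.Agent.Lib.MP_7470ba_co

/-- standard boundary of the 4-simplex -/
def Tb : Set (Fin 5 → ℝ) := {u | (∀ k, 0 ≤ u k) ∧ ∑ k, u k = 1 ∧ ∃ k, u k = 0}

/-- minimum of a vector -/
noncomputable def mn (e : Fin 5 → ℝ) : ℝ := Finset.univ.inf' Finset.univ_nonempty e

theorem mn_le (e : Fin 5 → ℝ) (k : Fin 5) : mn e ≤ e k := Finset.inf'_le _ (Finset.mem_univ k)

theorem mn_unique (e : Fin 5 → ℝ) (m : ℝ) (h1 : ∀ k, m ≤ e k) (h2 : ∃ k, e k = m) : mn e = m := by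
  obtain ⟨k, hk⟩ := h2
  apply le_antisymm
  · rw [← hk]; exact mn_le e k
  · exact Finset.le_inf' _ _ (fun i _ => h1 i)

theorem mn_mem (e : Fin 5 → ℝ) : ∃ k, e k = mn e := by
  obtain ⟨k, _, hk⟩ := Finset.exists_mem_eq_inf' Finset.univ_nonempty e
  exact ⟨k, hk.symm⟩

theorem mn_continuous : Continuous mn := by
  unfold mn
  exact Continuous.finset_inf'_apply Finset.univ_nonempty (fun i _ => continuous_apply i)

/-- extend by zero -/
noncomputable def ez (z : Fin 4 → ℝ) : Fin 5 → ℝ := fun k => if h : k.val < 4 then z ⟨k.val, h⟩ else 0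

/-- total mass -/
noncomputable def tot (z : Fin 4 → ℝ) : ℝ := ∑ k, (ez z k - mn (ez z))

/-- back map -/
noncomputable def bk (z : Fin 4 → ℝ) : Fin 5 → ℝ := fun k => (ez z k - mn (ez z)) / tot z

/-- forward map -/
noncomputable def fw (u : Fin 5 → ℝ) : Fin 4 → ℝ := fun i => u i.castSucc - u (Fin.last 4)

theorem ez_continuous : Continuous ez := by
  apply continuous_pi
  intro k
  unfold ez
  by_cases h : k.val < 4
  · simp only [h, dif_pos]
    exact continuous_apply _
  · simp only [h, dif_neg, not_false_eq_true]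
    exact continuous_const

theorem tot_continuous : Continuous tot := by
  unfold tot
  apply continuous_finsetSum
  intro k _
  exact ((continuous_apply k).comp ez_continuous).sub (mn_continuous.comp ez_continuous)

theorem fw_continuous : Continuous fw := by
  apply continuous_pi
  intro i
  exact (continuous_apply _).sub (continuous_apply _)

theorem tot_pos (z : Fin 4 → ℝ) (hz : z ≠ 0) : 0 < tot z := by
  have hnn : ∀ k ∈ Finset.univ, 0 ≤ ez z k - mn (ez z) := fun k _ => sub_nonneg.2 (mn_le _ k)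
  have h0 : 0 ≤ tot z := Finset.sum_nonneg hnn
  rcases h0.lt_or_eq with h | h
  · exact h
  · exfalso
    apply hz
    have h1 := (Finset.sum_eq_zero_iff_of_nonneg hnn).1 h.symm
    have h2 : mn (ez z) = 0 := by
      have := h1 (Fin.last 4) (Finset.mem_univ _)
      have h3 : ez z (Fin.last 4) = 0 := by simp [ez]
      rw [h3] at this
      linarith
    ext i
    have h4 := h1 i.castSucc (Finset.mem_univ _)
    have h5 : ez z i.castSucc = z i := by simp [ez]
    rw [h5, h2] at h4
    simpa using h4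

theorem ez_fw (u : Fin 5 → ℝ) (k : Fin 5) : ez (fw u) k = u k - u (Fin.last 4) := by
  unfold ez fw
  by_cases h : k.val < 4
  · rw [dif_pos h]
    rfl
  · rw [dif_neg h]
    have : k = Fin.last 4 := by
      apply Fin.ext
      have := k.isLt
      simp only [Fin.val_last]
      omega
    rw [this, sub_self]

theorem bk_mem (z : Fin 4 → ℝ) (hz : z ≠ 0) : bk z ∈ Tb := by
  have ht := tot_pos z hz
  refine ⟨?_, ?_, ?_⟩
  · intro k
    exact div_nonneg (sub_nonneg.2 (mn_le _ k)) ht.le
  · unfold bk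
    rw [← Finset.sum_div]
    exact div_self ht.ne'
  · obtain ⟨k, hk⟩ := mn_mem (ez z)
    refine ⟨k, ?_⟩
    unfold bk
    rw [hk, sub_self, zero_div]

theorem bk_fw (u : Fin 5 → ℝ) (hu : u ∈ Tb) (c : ℝ) (hc : 0 < c) : bk (fun i => c * fw u i) = u := by
  obtain ⟨h0, h1, k0, hk0⟩ := hu
  have he : ∀ k, ez (fun i => c * fw u i) k = c * (u k - u (Fin.last 4)) := by
    intro k
    rw [← ez_fw]
    unfold ez
    split_ifs
    · rfl
    · simp
  have hm : mn (ez (fun i => c * fw u i)) = - c * u (Fin.last 4) := by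
    apply mn_unique
    · intro k
      rw [he]
      have := mul_nonneg hc.le (h0 k)
      linarith
    · refine ⟨k0, ?_⟩
      rw [he, hk0]
      ring
  have hd : ∀ k, ez (fun i => c * fw u i) k - mn (ez (fun i => c * fw u i)) = c * u k := by
    intro k
    rw [hm, he]
    ring
  have ht : tot (fun i => c * fw u i) = c := by
    unfold tot
    rw [Finset.sum_congr rfl (fun k _ => hd k), ← Finset.mul_sum, h1, mul_one]
  ext k
  unfold bk
  rw [hd, ht]
  field_simp

theorem fw_bk (z : Fin 4 → ℝ) (i : Fin 4) : fw (bk z) i = (tot z)⁻¹ * z i := by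
  unfold fw bk
  have h1 : ez z i.castSucc = z i := by simp [ez]
  have h2 : ez z (Fin.last 4) = 0 := by simp [ez]
  rw [h1, h2]
  ring

theorem fw_ne (u : Fin 5 → ℝ) (hu : u ∈ Tb) : fw u ≠ 0 := by
  intro h
  obtain ⟨h0, h1, k0, hk0⟩ := hu
  have h2 : ∀ k, u k = u (Fin.last 4) := by
    intro k
    have h3 := ez_fw u k
    rw [h] at h3
    have h4 : ez (0 : Fin 4 → ℝ) k = 0 := by
      unfold ez
      split_ifs <;> rfl
    rw [h4] at h3
    linarith
  have h5 : ∀ k, u k = 0 := by
    intro k
    rw [h2 k, ← h2 k0, hk0]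
  simp [h5] at h1

/-- the vector of Euclidean space -/
noncomputable def vec (u : Fin 5 → ℝ) : EuclideanSpace ℝ (Fin 4) := WithLp.toLp 2 (fw u)

theorem vec_apply (u : Fin 5 → ℝ) (i : Fin 4) : vec u i = fw u i := rfl

theorem vec_continuous : Continuous vec := by
  unfold vec
  exact (PiLp.continuous_toLp 2 _).comp fw_continuous

theorem vec_ne (u : Fin 5 → ℝ) (hu : u ∈ Tb) : vec u ≠ 0 := by
  intro h
  apply fw_ne u hu
  ext i
  rw [← vec_apply, h]
  rfl

theorem sph_ne (z : Metric.sphere (0 : EuclideanSpace ℝ (Fin 4)) 1) :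
    (fun i => (z : EuclideanSpace ℝ (Fin 4)) i) ≠ 0 := by
  intro h
  have h1 : (z : EuclideanSpace ℝ (Fin 4)) = 0 := by
    ext i
    exact congrFun h i
  have h2 := z.2
  rw [h1] at h2
  simp at h2

/-- the boundary of the simplex is homeomorphic to the sphere -/
noncomputable def tbHomeo : Tb ≃ₜ Metric.sphere (0 : EuclideanSpace ℝ (Fin 4)) 1 where
  toFun u := ⟨‖vec u.1‖⁻¹ • vec u.1, by
    rw [mem_sphere_zero_iff_norm, norm_smul, norm_inv, norm_norm]
    exact inv_mul_cancel₀ (norm_ne_zero_iff.2 (vec_ne u.1 u.2))⟩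
  invFun z := ⟨bk (fun i => (z : EuclideanSpace ℝ (Fin 4)) i), bk_mem _ (sph_ne z)⟩
  left_inv u := by
    apply Subtype.ext
    have hn : 0 < ‖vec u.1‖⁻¹ := inv_pos.2 (norm_pos_iff.2 (vec_ne u.1 u.2))
    exact bk_fw u.1 u.2 _ hn
  right_inv z := by
    apply Subtype.ext
    have ht := tot_pos _ (sph_ne z)
    have h1 : vec (bk (fun i => (z : EuclideanSpace ℝ (Fin 4)) i)) =
        (tot (fun i => (z : EuclideanSpace ℝ (Fin 4)) i))⁻¹ • (z : EuclideanSpace ℝ (Fin 4)) := by
      ext i
      rw [vec_apply, fw_bk]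
      rfl
    have hz : ‖(z : EuclideanSpace ℝ (Fin 4))‖ = 1 := mem_sphere_zero_iff_norm.1 z.2
    change ‖vec (bk (fun i => (z : EuclideanSpace ℝ (Fin 4)) i))‖⁻¹ •
      vec (bk (fun i => (z : EuclideanSpace ℝ (Fin 4)) i)) = (z : EuclideanSpace ℝ (Fin 4))
    rw [h1, norm_smul, hz, mul_one, norm_inv, inv_inv, Real.norm_of_nonneg ht.le, smul_smul,
      mul_inv_cancel₀ ht.ne', one_smul]
  continuous_toFun := by
    apply Continuous.subtype_mk
    have hv : Continuous (fun u : Tb => vec u.1) := vec_continuous.comp continuous_subtype_val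
    refine Continuous.smul (Continuous.inv₀ hv.norm ?_) hv
    intro u
    exact norm_ne_zero_iff.2 (vec_ne u.1 u.2)
  continuous_invFun := by
    apply Continuous.subtype_mk
    have hz : Continuous (fun z : Metric.sphere (0 : EuclideanSpace ℝ (Fin 4)) 1 =>
        (fun i => (z : EuclideanSpace ℝ (Fin 4)) i)) := by
      apply continuous_pi
      intro i
      exact (PiLp.continuous_apply 2 _ i).comp continuous_subtype_val
    apply continuous_pi
    intro k
    unfold bk
    refine Continuous.div ?_ (tot_continuous.comp hz) (fun z => (tot_pos _ (sph_ne z)).ne')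
    exact ((continuous_apply k).comp (ez_continuous.comp hz)).sub
      (mn_continuous.comp (ez_continuous.comp hz))

section Embed

variable {n : ℕ}

/-- spread a vector of `Fin 5` over `Fin n` -/
noncomputable def spr (w : Fin 5 → Fin n) (u : Fin 5 → ℝ) : Fin n → ℝ :=
  fun i => ∑ k, if w k = i then u k else 0

theorem spr_apply (w : Fin 5 → Fin n) (hw : Function.Injective w) (u : Fin 5 → ℝ) (k : Fin 5) :
    spr w u (w k) = u k := by
  unfold spr
  rw [Finset.sum_eq_single k]
  · rw [if_pos rfl]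
  · intro b _ hb
    rw [if_neg (fun h => hb (hw h))]
  · intro h
    exact absurd (Finset.mem_univ _) h

theorem spr_off (w : Fin 5 → Fin n) (u : Fin 5 → ℝ) (i : Fin n) (hi : ∀ k, w k ≠ i) :
    spr w u i = 0 := by
  unfold spr
  apply Finset.sum_eq_zero
  intro k _
  rw [if_neg (hi k)]

theorem sum_spr (w : Fin 5 → Fin n) (u : Fin 5 → ℝ) : ∑ i, spr w u i = ∑ k, u k := by
  unfold spr
  rw [Finset.sum_comm]
  apply Finset.sum_congr rfl
  intro k _
  rw [Finset.sum_ite_eq]
  simp

theorem spr_continuous (w : Fin 5 → Fin n) : Continuous (spr w) := by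
  apply continuous_pi
  intro i
  unfold spr
  apply continuous_finsetSum
  intro k _
  split_ifs
  · exact continuous_apply k
  · exact continuous_const

/-- The realization of the boundary of a 4-simplex inside `Fin n → ℝ`. -/
noncomputable def embHomeo (w : Fin 5 → Fin n) (hw : Function.Injective w)
    (F : Finset (Finset (Fin n)))
    (h1 : ∀ σ ∈ F, ∃ k, ∀ i, i ∈ σ → (∃ k', w k' = i) ∧ i ≠ w k)
    (h2 : ∀ k, ∃ σ ∈ F, ∀ k', k' ≠ k → w k' ∈ σ) : Rz F ≃ₜ Tb where
  toFun x := ⟨fun k => x.1 (w k), by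
    obtain ⟨x, h3, h4, σ, hσ, h5⟩ := x
    obtain ⟨k, hk⟩ := h1 σ hσ
    refine ⟨fun k => h3 _, ?_, k, ?_⟩
    · have h6 : ∑ i ∈ Finset.univ.image w, x i = ∑ i, x i := by
        apply Finset.sum_subset (Finset.subset_univ _)
        intro i _ hi
        by_contra hx
        obtain ⟨⟨k', hk'⟩, -⟩ := hk i (h5 i hx)
        exact hi (Finset.mem_image.2 ⟨k', Finset.mem_univ _, hk'⟩)
      have h7 : ∑ k, x (w k) = ∑ i ∈ Finset.univ.image w, x i :=
        (Finset.sum_image (fun a _ b _ h => hw h)).symm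
      exact h7.trans (h6.trans h4)
    · by_contra hx
      exact (hk _ (h5 _ hx)).2 rfl⟩
  invFun u := ⟨spr w u.1, by
    obtain ⟨u, h3, h4, k, hk⟩ := u
    obtain ⟨σ, hσ, h5⟩ := h2 k
    refine ⟨?_, ?_, σ, hσ, ?_⟩
    · intro i
      unfold spr
      apply Finset.sum_nonneg
      intro k _
      split_ifs
      · exact h3 k
      · exact le_refl _
    · rw [sum_spr, h4]
    · intro i hi
      by_cases hex : ∃ k', w k' = i
      · obtain ⟨k', rfl⟩ := hex
        apply h5
        rintro rfl
        apply hi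
        rw [spr_apply w hw]
        exact hk
      · push Not at hex
        exact absurd (spr_off w u i hex) hi⟩
  left_inv x := by
    obtain ⟨x, h3, h4, σ, hσ, h5⟩ := x
    apply Subtype.ext
    ext i
    by_cases hex : ∃ k', w k' = i
    · obtain ⟨k', rfl⟩ := hex
      exact spr_apply w hw _ k'
    · push Not at hex
      obtain ⟨k, hk⟩ := h1 σ hσ
      change spr w (fun k => x (w k)) i = x i
      rw [spr_off w _ i hex]
      by_contra hx
      obtain ⟨⟨k', hk'⟩, -⟩ := hk i (h5 i (Ne.symm hx))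
      exact hex k' hk'
  right_inv u := by
    apply Subtype.ext
    ext k
    exact spr_apply w hw _ k
  continuous_toFun := by
    apply Continuous.subtype_mk
    apply continuous_pi
    intro k
    exact (continuous_apply _).comp continuous_subtype_val
  continuous_invFun := by
    apply Continuous.subtype_mk
    exact (spr_continuous w).comp continuous_subtype_val

end Embed

end Pool.Agent.Lib.MP_7470ba_co
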