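import Pool.Agent.Lib.MP_7470ba_co.Masks

/-!
# Shellable families are constructible
-/

namespace Pool.Agent.Lib.MP_7470ba_co

section

variable {n : ℕ}

/-- `P` contains the simplices and is closed under the constructible unions -/
structure Closed (P : ℕ → Finset (Finset (Fin n)) → Prop) : Prop where
  simplex : ∀ σ : Finset (Fin n), P σ.card {σ}
  union : ∀ (k : ℕ) (F₁ F₂ G : Finset (Finset (Fin n))), 1 ≤ k →
        (∀ σ ∈ F₁, σ.card = k) → (∀ σ ∈ F₂, σ.card = k) → P k F₁ → P k F₂ →
        (∀ γ ∈ G, γ.card = k - 1) →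
        (∀ ρ : Finset (Fin n), (∃ γ ∈ G, ρ ⊆ γ) ↔
          (∃ σ ∈ F₁, ∃ τ ∈ F₂, ρ ⊆ σ ∧ ρ ⊆ τ)) →
        P (k - 1) G → P k (F₁ ∪ F₂)

theorem Closed.bd {P : ℕ → Finset (Finset (Fin n)) → Prop} (h : Closed P) :
    ∀ X : Finset (Fin n), X.Nonempty → ∀ σ, X ⊆ σ →
      P (σ.card - 1) (X.image (fun x => σ.erase x)) := by
  intro X
  induction X using Finset.induction_on with
  | empty => intro h0; exact absurd h0 (by simp)
  | insert a X ha ih =>
    intro _ σ hσ
    have haσ : a ∈ σ := hσ (Finset.mem_insert_self _ _)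
    have hXσ : X ⊆ σ := fun x hx => hσ (Finset.mem_insert_of_mem hx)
    by_cases hX : X.Nonempty
    · have h1 := ih hX σ hXσ
      have hXe : X ⊆ σ.erase a := fun x hx => Finset.mem_erase.2
        ⟨fun e => ha (e ▸ hx), hXσ hx⟩
      have h2 := ih hX (σ.erase a) hXe
      have hc : (σ.erase a).card = σ.card - 1 := Finset.card_erase_of_mem haσ
      rw [hc] at h2
      have hcard : 1 ≤ σ.card - 1 := by
        rw [← hc]
        obtain ⟨x, hx⟩ := hX
        exact Finset.card_pos.2 ⟨x, hXe hx⟩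
      have h3 : P (σ.card - 1) {σ.erase a} := by
        rw [← hc]; exact h.simplex _
      have h4 := h.union (σ.card - 1) (X.image (fun x => σ.erase x)) {σ.erase a}
        (X.image (fun x => (σ.erase a).erase x)) hcard
        (by
          intro τ hτ
          obtain ⟨x, hx, rfl⟩ := Finset.mem_image.1 hτ
          exact Finset.card_erase_of_mem (hXσ hx))
        (by
          intro τ hτ
          rw [Finset.mem_singleton.1 hτ, hc])
        h1 h3
        (by
          intro τ hτ
          obtain ⟨x, hx, rfl⟩ := Finset.mem_image.1 hτ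
          rw [Finset.card_erase_of_mem (hXe hx), hc])
        (by
          intro ρ
          constructor
          · rintro ⟨γ, hγ, hρ⟩
            obtain ⟨x, hx, rfl⟩ := Finset.mem_image.1 hγ
            refine ⟨σ.erase x, Finset.mem_image.2 ⟨x, hx, rfl⟩, σ.erase a,
              Finset.mem_singleton_self _, ?_, ?_⟩
            · intro y hy
              have := hρ hy
              simp only [Finset.mem_erase] at this ⊢
              exact ⟨this.1, this.2.2⟩
            · intro y hy
              have := hρ hy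
              simp only [Finset.mem_erase] at this ⊢
              exact ⟨this.2.1, this.2.2⟩
          · rintro ⟨τ, hτ, τ', hτ', h5, h6⟩
            obtain ⟨x, hx, rfl⟩ := Finset.mem_image.1 hτ
            rw [Finset.mem_singleton.1 hτ'] at h6
            refine ⟨_, Finset.mem_image.2 ⟨x, hx, rfl⟩, ?_⟩
            intro y hy
            have h7 := h5 hy
            have h8 := h6 hy
            simp only [Finset.mem_erase] at h7 h8 ⊢
            exact ⟨h7.1, h8.1, h7.2⟩)
        h2
      have h5 : (insert a X).image (fun x => σ.erase x) =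
          X.image (fun x => σ.erase x) ∪ {σ.erase a} := by
        rw [Finset.image_insert]
        ext τ
        simp only [Finset.mem_insert, Finset.mem_union, Finset.mem_singleton]
        tauto
      rw [h5]
      exact h4
    · rw [Finset.not_nonempty_iff_eq_empty] at hX
      subst hX
      have h5 : (insert a (∅ : Finset (Fin n))).image (fun x => σ.erase x) = {σ.erase a} := by
        simp
      rw [h5, ← Finset.card_erase_of_mem haσ]
      exact h.simplex _

/-- adding one facet along a pure part of its boundary -/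
theorem Closed.step {P : ℕ → Finset (Finset (Fin n)) → Prop} (h : Closed P) (k : ℕ) (hk : 1 ≤ k)
    (F : Finset (Finset (Fin n))) (hF : ∀ σ ∈ F, σ.card = k) (hP : P k F) (σ : Finset (Fin n))
    (hσ : σ.card = k) (hne : F.Nonempty)
    (hsh : ∀ τ ∈ F, ∃ x ∈ σ, ∃ τ' ∈ F, τ ∩ σ ⊆ σ.erase x ∧ σ.erase x ⊆ τ') :
    P k (F ∪ {σ}) := by
  classical
  set X : Finset (Fin n) := σ.filter (fun x => ∃ τ' ∈ F, σ.erase x ⊆ τ') with hX
  have hXσ : X ⊆ σ := Finset.filter_subset _ _
  have hXne : X.Nonempty := by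
    obtain ⟨τ, hτ⟩ := hne
    obtain ⟨x, hx, τ', hτ', -, h2⟩ := hsh τ hτ
    exact ⟨x, Finset.mem_filter.2 ⟨hx, τ', hτ', h2⟩⟩
  have h1 := h.bd X hXne σ hXσ
  rw [hσ] at h1
  have h2 : P k {σ} := by rw [← hσ]; exact h.simplex σ
  refine h.union k F {σ} (X.image (fun x => σ.erase x)) hk hF ?_ hP h2 ?_ ?_ h1
  · intro τ hτ
    rw [Finset.mem_singleton.1 hτ, hσ]
  · intro γ hγ
    obtain ⟨x, hx, rfl⟩ := Finset.mem_image.1 hγ
    rw [Finset.card_erase_of_mem (hXσ hx), hσ]
  · intro ρ
    constructor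
    · rintro ⟨γ, hγ, hρ⟩
      obtain ⟨x, hx, rfl⟩ := Finset.mem_image.1 hγ
      obtain ⟨-, τ', hτ', h3⟩ := Finset.mem_filter.1 hx
      exact ⟨τ', hτ', σ, Finset.mem_singleton_self _, hρ.trans h3,
        hρ.trans (Finset.erase_subset _ _)⟩
    · rintro ⟨τ, hτ, τ2, hτ2, h3, h4⟩
      rw [Finset.mem_singleton.1 hτ2] at h4
      obtain ⟨x, hx, τ', hτ', h5, h6⟩ := hsh τ hτ
      exact ⟨_, Finset.mem_image.2 ⟨x, Finset.mem_filter.2 ⟨hx, τ', hτ', h6⟩, rfl⟩,
        (Finset.subset_inter h3 h4).trans h5⟩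

end

/-- Boolean check of a shelling order, read backwards: the head of the list is the last facet -/
def shOK (k : ℕ) : List ℕ → Bool
  | [] => true
  | m :: L => (m < 2 ^ 18) && (pc m == k) && shOK k L &&
      (L.all fun r => L.any fun z => ((r &&& m) &&& z == (r &&& m)) && (pc (m &&& z) + 1 == k))

theorem shell_constr {P : ℕ → Finset (Finset (Fin 18)) → Prop} (h : Closed P) (k : ℕ)
    (hk : 1 ≤ k) : ∀ L : List ℕ, shOK k L = true → L ≠ [] →
      P k (toFF L) ∧ ∀ σ ∈ toFF L, σ.card = k := by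
  intro L
  induction L with
  | nil => intro _ h0; exact absurd rfl h0
  | cons m L ih =>
    intro hc _
    rw [shOK] at hc
    simp only [Bool.and_eq_true, decide_eq_true_eq, beq_iff_eq, List.all_eq_true,
      List.any_eq_true] at hc
    obtain ⟨⟨⟨hm, hpc⟩, hL⟩, hall⟩ := hc
    have hmk : (toF m).card = k := by rw [card_toF, hpc]
    have hcons : toFF (m :: L) = toFF L ∪ {toF m} := by
      ext σ
      simp only [mem_toFF, List.mem_cons, Finset.mem_union, Finset.mem_singleton]
      constructor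
      · rintro ⟨r, rfl | hr, rfl⟩
        · exact Or.inr rfl
        · exact Or.inl ⟨r, hr, rfl⟩
      · rintro (⟨r, hr, rfl⟩ | rfl)
        · exact ⟨r, Or.inr hr, rfl⟩
        · exact ⟨m, Or.inl rfl, rfl⟩
    by_cases hne : L = []
    · subst hne
      have h0 : toFF [m] = {toF m} := by
        rw [hcons]
        simp [toFF]
      rw [h0]
      refine ⟨?_, ?_⟩
      · rw [← hmk]; exact h.simplex _
      · intro σ hσ
        rw [Finset.mem_singleton.1 hσ, hmk]
    · obtain ⟨h1, h2⟩ := ih hL hne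
      rw [hcons]
      refine ⟨?_, ?_⟩
      · refine h.step k hk (toFF L) h2 h1 (toF m) hmk ?_ ?_
        · obtain ⟨r, hr⟩ := List.exists_mem_of_ne_nil L hne
          exact ⟨toF r, (mem_toFF _ _).2 ⟨r, hr, rfl⟩⟩
        · intro τ hτ
          obtain ⟨r, hr, rfl⟩ := (mem_toFF _ _).1 hτ
          obtain ⟨z, hz, h3, h4⟩ := hall r hr
          have h5 : toF r ∩ toF m ⊆ toF z := by
            rw [← toF_and]
            exact toF_subset_of_and h3
          have h6 : (toF m ∩ toF z).card + 1 = k := by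
            rw [← toF_and, card_toF]; exact h4
          have h7 : (toF m \ toF z).card = 1 := by
            have := Finset.card_sdiff_add_card_inter (toF m) (toF z)
            omega
          obtain ⟨x, hx⟩ := Finset.card_eq_one.1 h7
          have hx1 : x ∈ toF m \ toF z := by rw [hx]; exact Finset.mem_singleton_self _
          refine ⟨x, (Finset.mem_sdiff.1 hx1).1, toF z, (mem_toFF _ _).2 ⟨z, hz, rfl⟩, ?_, ?_⟩
          · intro y hy
            rw [Finset.mem_erase]
            refine ⟨?_, (Finset.mem_inter.1 hy).2⟩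
            rintro rfl
            exact (Finset.mem_sdiff.1 hx1).2 (h5 hy)
          · intro y hy
            rw [Finset.mem_erase] at hy
            by_contra hyz
            have : y ∈ toF m \ toF z := Finset.mem_sdiff.2 ⟨hy.2, hyz⟩
            rw [hx, Finset.mem_singleton] at this
            exact hy.1 this
      · intro σ hσ
        rcases Finset.mem_union.1 hσ with h3 | h3
        · exact h2 σ h3
        · rw [Finset.mem_singleton.1 h3, hmk]

/-- Boolean check that `G` generates the intersection of the complexes of `L1` and `L2` -/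
def interOK (L1 L2 G : List ℕ) : Bool :=
  (G.all fun g => (L1.any fun a => g &&& a == g) && (L2.any fun b => g &&& b == g)) &&
  (L1.all fun a => L2.all fun b => G.any fun g => (a &&& b) &&& g == (a &&& b))

theorem union_constr {P : ℕ → Finset (Finset (Fin 18)) → Prop} (h : Closed P) (k : ℕ)
    (hk : 1 ≤ k) (L1 L2 G : List ℕ) (hP1 : P k (toFF L1)) (hc1 : ∀ σ ∈ toFF L1, σ.card = k)
    (hP2 : P k (toFF L2)) (hc2 : ∀ σ ∈ toFF L2, σ.card = k)
    (hG : P (k - 1) (toFF G)) (hcG : ∀ σ ∈ toFF G, σ.card = k - 1)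
    (hI : interOK L1 L2 G = true) :
    P k (toFF (L1 ++ L2)) ∧ ∀ σ ∈ toFF (L1 ++ L2), σ.card = k := by
  have happ : toFF (L1 ++ L2) = toFF L1 ∪ toFF L2 := by
    ext σ
    simp only [mem_toFF, List.mem_append, Finset.mem_union]
    constructor
    · rintro ⟨r, hr | hr, rfl⟩
      · exact Or.inl ⟨r, hr, rfl⟩
      · exact Or.inr ⟨r, hr, rfl⟩
    · rintro (⟨r, hr, rfl⟩ | ⟨r, hr, rfl⟩)
      · exact ⟨r, Or.inl hr, rfl⟩
      · exact ⟨r, Or.inr hr, rfl⟩
  rw [interOK] at hI
  simp only [Bool.and_eq_true, beq_iff_eq, List.all_eq_true, List.any_eq_true] at hI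
  obtain ⟨h1, h2⟩ := hI
  rw [happ]
  refine ⟨h.union k (toFF L1) (toFF L2) (toFF G) hk hc1 hc2 hP1 hP2 hcG ?_ hG, ?_⟩
  · intro ρ
    constructor
    · rintro ⟨γ, hγ, hρ⟩
      obtain ⟨g, hg, rfl⟩ := (mem_toFF _ _).1 hγ
      obtain ⟨⟨a, ha, ha2⟩, b, hb, hb2⟩ := h1 g hg
      exact ⟨toF a, (mem_toFF _ _).2 ⟨a, ha, rfl⟩, toF b, (mem_toFF _ _).2 ⟨b, hb, rfl⟩,
        hρ.trans (toF_subset_of_and ha2), hρ.trans (toF_subset_of_and hb2)⟩
    · rintro ⟨σ, hσ, τ, hτ, h3, h4⟩
      obtain ⟨a, ha, rfl⟩ := (mem_toFF _ _).1 hσ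
      obtain ⟨b, hb, rfl⟩ := (mem_toFF _ _).1 hτ
      obtain ⟨g, hg, hg2⟩ := h2 a ha b hb
      refine ⟨toF g, (mem_toFF _ _).2 ⟨g, hg, rfl⟩, ?_⟩
      have h5 := toF_subset_of_and hg2
      rw [toF_and] at h5
      exact (Finset.subset_inter h3 h4).trans h5
  · intro σ hσ
    rcases Finset.mem_union.1 hσ with h3 | h3
    · exact hc1 σ h3
    · exact hc2 σ h3

end Pool.Agent.Lib.MP_7470ba_co
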