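import Pool.Agent.Lib.MP_7470ba_co.Data
import Pool.Agent.Lib.MP_7470ba_co.Base
import Pool.Agent.Lib.MP_7470ba_co.Constr

/-!
# Kernel checks for the explicit complex
-/

namespace Pool.Agent.Lib.MP_7470ba_co

theorem facets_nodup : facets.Nodup := by decide +kernel

theorem facets_length : facets.length = 93 := by decide +kernel

theorem facets_basic : (facets.all fun x => Nat.blt x (2 ^ 18) && (pc x == 4)) = true := by
  decide +kernel

theorem nb_check : nbOK facets nbTable = true := by decide +kernel

theorem pseudo_check : pseudoOK facets nbTable = true := by decide +kernel

theorem cd01_check : cd01.ok facets nbTable = true := by decide +kernel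

theorem cd02_check : cd02.ok facets nbTable = true := by decide +kernel

theorem cd12_check : cd12.ok facets nbTable = true := by decide +kernel

theorem sec0_check : shOK 4 sec0 = true := by decide +kernel

theorem sec1_check : shOK 4 sec1 = true := by decide +kernel

theorem sec2_check : shOK 4 sec2 = true := by decide +kernel

theorem page_check : shOK 3 page = true := by decide +kernel

theorem wall_check : shOK 3 wall = true := by decide +kernel

theorem inter01_check : interOK sec0 sec1 page = true := by decide +kernel

theorem inter2_check : interOK (sec0 ++ sec1) sec2 wall = true := by decide +kernel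

/-- same elements -/
def sameElts (L L' : List ℕ) : Bool := (L.all fun x => L'.contains x) && (L'.all fun x => L.contains x)

theorem sameElts_toFF {L L' : List ℕ} (h : sameElts L L' = true) : toFF L = toFF L' := by
  unfold sameElts at h
  simp only [Bool.and_eq_true, List.all_eq_true, List.contains_iff_mem] at h
  ext σ
  rw [mem_toFF, mem_toFF]
  constructor
  · rintro ⟨m, hm, rfl⟩
    exact ⟨m, h.1 m hm, rfl⟩
  · rintro ⟨m, hm, rfl⟩
    exact ⟨m, h.2 m hm, rfl⟩

theorem sectors_check : sameElts ((sec0 ++ sec1) ++ sec2) facets = true := by decide +kernel

theorem flips_check : (match runFlips base flips with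
    | some L => sameElts L facets
    | none => false) = true := by decide +kernel

end Pool.Agent.Lib.MP_7470ba_co
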