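import Mathlib

/-!
# An obstruction to shellability

`S` is a finite set of facets (tetrahedra) of a 3-dimensional complex, `f x` is the vertex set of
the facet `x`, and `t` is the position of a facet in a shelling order.

A flat colouring is a function `c` on facets with `c y = Φ y z (c z)` for adjacent facets.
The data `Φ` describe a three-fold covering of the complement of a closed 4-cycle `K` in the
1-skeleton.  If this covering has no global section, then in every shelling order two opposite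
edges of `K` close before the other two are born.
-/

namespace Pool.Agent.Lib.MP_7470ba_co

theorem zmod4_cases : ∀ i j : ZMod 4, j = i ∨ j = i + 1 ∨ j = i + 2 ∨ j = i + 3 := by decide

theorem zmod4_wrap : ∀ i : ZMod 4, i + 3 + 1 = i := by decide

section Obstruction

variable {ι V C : Type} [DecidableEq ι] [DecidableEq V]

/-- two facets are adjacent: they share three vertices -/
def Adj (f : ι → Finset V) (x y : ι) : Prop := (f x ∩ f y).card = 3

theorem Adj.symm {f : ι → Finset V} {x y : ι} (h : Adj f x y) : Adj f y x := by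
  unfold Adj at *
  rw [Finset.inter_comm]; exact h

/-- `t` gives the positions of the facets in a shelling order -/
structure IsShellOrder (S : Finset ι) (f : ι → Finset V) (t : ι → ℕ) : Prop where
  inj : ∀ x ∈ S, ∀ y ∈ S, t x = t y → x = y
  lt : ∀ x ∈ S, t x < S.card
  surj : ∀ T < S.card, ∃ x ∈ S, t x = T
  card4 : ∀ x ∈ S, (f x).card = 4
  shell : ∀ x ∈ S, ∀ y ∈ S, t x < t y →
    ∃ z ∈ S, t z < t y ∧ f x ∩ f y ⊆ f z ∧ Adj f z y

/-- The facets containing a face `s` are, at any time, connected through facets containing `s`. -/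
theorem star_prop {S : Finset ι} {f : ι → Finset V} {t : ι → ℕ} (h : IsShellOrder S f t)
    (s : Finset V) (T : ℕ) (A : ι → Prop)
    (hA : ∀ y ∈ S, ∀ z ∈ S, t y < T → t z < T → s ⊆ f y → s ⊆ f z → Adj f y z → A y → A z)
    (x0 : ι) (hx0 : x0 ∈ S) (hs0 : s ⊆ f x0) (ht0 : t x0 < T) (hA0 : A x0) :
    ∀ x ∈ S, s ⊆ f x → t x < T → A x := by
  have key : ∀ N, ∀ x ∈ S, ∀ y ∈ S, s ⊆ f x → s ⊆ f y → t x < T → t y < T →
      t x ≤ N → t y ≤ N → A x → A y := by
    intro N
    induction N with
    | zero =>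
      intro x hx y hy _ _ _ _ hxN hyN hAx
      have : x = y := h.inj x hx y hy (by omega)
      rw [← this]; exact hAx
    | succ N ih =>
      intro x hx y hy hsx hsy hxT hyT hxN hyN hAx
      by_cases h1 : t x ≤ N
      · by_cases h2 : t y ≤ N
        · exact ih x hx y hy hsx hsy hxT hyT h1 h2 hAx
        · obtain ⟨z, hz, hzt, hzs, hadj⟩ := h.shell x hx y hy (by omega)
          have hsz : s ⊆ f z := fun a ha => hzs (Finset.mem_inter.2 ⟨hsx ha, hsy ha⟩)
          have hAz := ih x hx z hz hsx hsz hxT (by omega) h1 (by omega) hAx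
          exact hA z hz y hy (by omega) hyT hsz hsy hadj hAz
      · by_cases h2 : t y ≤ N
        · obtain ⟨z, hz, hzt, hzs, hadj⟩ := h.shell y hy x hx (by omega)
          have hsz : s ⊆ f z := fun a ha => hzs (Finset.mem_inter.2 ⟨hsy ha, hsx ha⟩)
          have hAz := hA x hx z hz hxT (by omega) hsx hsz hadj.symm hAx
          exact ih z hz y hy hsz hsy (by omega) hyT (by omega) h2 hAz
        · have : x = y := h.inj x hx y hy (by omega)
          rw [← this]; exact hAx
  intro x hx hsx hxT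
  exact key (max (t x0) (t x)) x0 hx0 x hx hs0 hsx ht0 hxT (le_max_left _ _) (le_max_right _ _) hA0

/-- `c` is flat on the facets placed before time `T` -/
def Flat (S : Finset ι) (f : ι → Finset V) (t : ι → ℕ) (Φ : ι → ι → C → C) (T : ℕ) (c : ι → C) :
    Prop :=
  ∀ y ∈ S, ∀ z ∈ S, t y < T → t z < T → Adj f y z → c y = Φ y z (c z)

/-- the edge `e` closes at time `T`: the facet placed at time `T` is adjacent to two different
earlier facets containing `e`. -/
def Closes (S : Finset ι) (f : ι → Finset V) (t : ι → ℕ) (e : Finset V) (T : ℕ) : Prop :=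
  ∃ y ∈ S, ∃ z ∈ S, ∃ z' ∈ S, t y = T ∧ t z < T ∧ t z' < T ∧ z ≠ z' ∧ Adj f y z ∧ Adj f y z' ∧
    e ⊆ f y ∧ e ⊆ f z ∧ e ⊆ f z'

/-- some facet placed before time `T` contains `e` -/
def Born (S : Finset ι) (f : ι → Finset V) (t : ι → ℕ) (e : Finset V) (T : ℕ) : Prop :=
  ∃ x ∈ S, e ⊆ f x ∧ t x < T

/-- `e` closes at a time at which `e'` is not yet born -/
def CB (S : Finset ι) (f : ι → Finset V) (t : ι → ℕ) (e e' : Finset V) : Prop :=
  ∃ T, Closes S f t e T ∧ ¬ Born S f t e' T

theorem CB.asymm {S : Finset ι} {f : ι → Finset V} {t : ι → ℕ} {e e' : Finset V}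
    (h1 : CB S f t e e') (h2 : CB S f t e' e) : False := by
  obtain ⟨T, ⟨y, hy, z, hz, z', hz', h3, h4, h5, h6, h7, h8, h9, h10, h11⟩, h12⟩ := h1
  obtain ⟨T', ⟨w, hw, u, hu, u', hu', g3, g4, g5, g6, g7, g8, g9, g10, g11⟩, g12⟩ := h2
  have a1 : ¬ t u < T := fun h => h12 ⟨u, hu, g10, h⟩
  have a2 : ¬ t z < T' := fun h => g12 ⟨z, hz, h10, h⟩
  omega

/-- The combinatorial data of a covering of the complement of the 4-cycle `v 0, v 1, v 2, v 3`. -/
structure CoverData (S : Finset ι) (f : ι → Finset V) (Φ : ι → ι → C → C) (v : ZMod 4 → V)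
    (cv : ZMod 4 → ι → C) : Prop where
  symm : ∀ x ∈ S, ∀ y ∈ S, Adj f x y → ∀ a, Φ x y (Φ y x a) = a
  pseudo : ∀ y ∈ S, ∀ z ∈ S, ∀ z' ∈ S, Adj f y z → Adj f y z' → f y ∩ f z = f y ∩ f z' → z = z'
  sec : ∀ e : Finset V, e.card = 2 → (∀ i, e ≠ {v i, v (i + 1)}) → ∀ x ∈ S, e ⊆ f x → ∀ a,
    ∃ s : ι → C, s x = a ∧ ∀ y ∈ S, ∀ z ∈ S, e ⊆ f y → e ⊆ f z → Adj f y z → s y = Φ y z (s z)
  canon : ∀ i, ∀ y ∈ S, ∀ z ∈ S, v i ∈ f y → v i ∈ f z → Adj f y z → cv i y = Φ y z (cv i z)
  agree : ∀ i, ∀ x ∈ S, v i ∈ f x → v (i + 1) ∈ f x → cv i x = cv (i + 1) x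
  edge : ∀ i, ∃ x ∈ S, ({v i, v (i + 1)} : Finset V) ⊆ f x
  noglobal : ¬ ∃ c : ι → C, ∀ y ∈ S, ∀ z ∈ S, Adj f y z → c y = Φ y z (c z)

variable {S : Finset ι} {f : ι → Finset V} {t : ι → ℕ} {Φ : ι → ι → C → C} {v : ZMod 4 → V}
  {cv : ZMod 4 → ι → C}

/-- extension of a flat colouring by one facet -/
theorem extend (h : IsShellOrder S f t) (D : CoverData S f Φ v cv) (T : ℕ) (c : ι → C)
    (hc : Flat S f t Φ T c) (y : ι) (hy : y ∈ S) (hyT : t y = T)
    (hcons : ∀ z ∈ S, ∀ z' ∈ S, t z < T → t z' < T → z ≠ z' → Adj f y z → Adj f y z' →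
      Φ y z (c z) = Φ y z' (c z')) :
    ∃ c' : ι → C, Flat S f t Φ (T + 1) c' ∧ ∀ x, x ≠ y → c' x = c x := by
  classical
  have hne : ∀ z ∈ S, t z < T → z ≠ y := by
    intro z _ hz hzy
    rw [hzy] at hz; omega
  have hself : ¬ Adj f y y := by
    unfold Adj
    rw [Finset.inter_self, h.card4 y hy]
    decide
  by_cases hex : ∃ z ∈ S, t z < T ∧ Adj f y z
  · obtain ⟨z0, hz0, hz0T, hadj0⟩ := hex
    refine ⟨Function.update c y (Φ y z0 (c z0)), ?_, ?_⟩
    · have hval : ∀ z ∈ S, t z < T → Adj f y z → Φ y z0 (c z0) = Φ y z (c z) := by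
        intro z hz hzT hadj
        by_cases hzz : z0 = z
        · rw [hzz]
        · exact hcons z0 hz0 z hz hz0T hzT hzz hadj0 hadj
      intro a ha b hb haT hbT hab
      by_cases hay : a = y
      · by_cases hby : b = y
        · rw [hay, hby] at hab; exact absurd hab hself
        · have hbT' : t b < T := by
            rcases Nat.lt_succ_iff_lt_or_eq.1 hbT with h1 | h1
            · exact h1
            · exact absurd (h.inj b hb y hy (by omega)) hby
          rw [hay, Function.update_self, Function.update_of_ne hby]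
          rw [hay] at hab
          exact hval b hb hbT' hab
      · have haT' : t a < T := by
          rcases Nat.lt_succ_iff_lt_or_eq.1 haT with h1 | h1
          · exact h1
          · exact absurd (h.inj a ha y hy (by omega)) hay
        by_cases hby : b = y
        · rw [hby, Function.update_self, Function.update_of_ne hay]
          rw [hby] at hab
          rw [hval a ha haT' hab.symm]
          exact (D.symm a ha y hy hab (c a)).symm
        · have hbT' : t b < T := by
            rcases Nat.lt_succ_iff_lt_or_eq.1 hbT with h1 | h1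
            · exact h1
            · exact absurd (h.inj b hb y hy (by omega)) hby
          rw [Function.update_of_ne hay, Function.update_of_ne hby]
          exact hc a ha b hb haT' hbT' hab
    · intro x hx
      rw [Function.update_of_ne hx]
  · refine ⟨c, ?_, fun _ _ => rfl⟩
    intro a ha b hb haT hbT hab
    by_cases hay : a = y
    · by_cases hby : b = y
      · rw [hay, hby] at hab; exact absurd hab hself
      · have hbT' : t b < T := by
          rcases Nat.lt_succ_iff_lt_or_eq.1 hbT with h1 | h1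
          · exact h1
          · exact absurd (h.inj b hb y hy (by omega)) hby
        rw [hay] at hab
        exact absurd ⟨b, hb, hbT', hab⟩ hex
    · have haT' : t a < T := by
        rcases Nat.lt_succ_iff_lt_or_eq.1 haT with h1 | h1
        · exact h1
        · exact absurd (h.inj a ha y hy (by omega)) hay
      by_cases hby : b = y
      · rw [hby] at hab
        exact absurd ⟨a, ha, haT', hab.symm⟩ hex
      · have hbT' : t b < T := by
          rcases Nat.lt_succ_iff_lt_or_eq.1 hbT with h1 | h1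
          · exact h1
          · exact absurd (h.inj b hb y hy (by omega)) hby
        exact hc a ha b hb haT' hbT' hab

/-- the common edge of three facets -/
theorem common_edge (h : IsShellOrder S f t) (D : CoverData S f Φ v cv) {y z z' : ι} (hy : y ∈ S)
    (hz : z ∈ S) (hz' : z' ∈ S) (hne : z ≠ z') (h1 : Adj f y z) (h2 : Adj f y z') :
    (f y ∩ f z ∩ f z').card = 2 := by
  have h3 : f y ∩ f z ≠ f y ∩ f z' := fun h => hne (D.pseudo y hy z hz z' hz' h1 h2 h)
  have h4 : (f y ∩ f z) ∩ (f y ∩ f z') = f y ∩ f z ∩ f z' := by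
    ext a
    simp only [Finset.mem_inter]
    tauto
  have h5 : ((f y ∩ f z) ∪ (f y ∩ f z')).card + ((f y ∩ f z) ∩ (f y ∩ f z')).card = 3 + 3 := by
    rw [Finset.card_union_add_card_inter]
    unfold Adj at h1 h2
    rw [h1, h2]
  have h6 : (f y ∩ f z) ∪ (f y ∩ f z') ⊆ f y := by
    intro a ha
    simp only [Finset.mem_union, Finset.mem_inter] at ha
    tauto
  have h7 : ((f y ∩ f z) ∪ (f y ∩ f z')).card ≤ 4 := by
    rw [← h.card4 y hy]; exact Finset.card_le_card h6
  have h8 : 3 < ((f y ∩ f z) ∪ (f y ∩ f z')).card := by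
    by_contra hcon
    push Not at hcon
    have e1 : f y ∩ f z = (f y ∩ f z) ∪ (f y ∩ f z') :=
      Finset.eq_of_subset_of_card_le Finset.subset_union_left (by rw [h1]; exact hcon)
    have e2 : f y ∩ f z' = (f y ∩ f z) ∪ (f y ∩ f z') :=
      Finset.eq_of_subset_of_card_le Finset.subset_union_right (by rw [h2]; exact hcon)
    exact h3 (e1.trans e2.symm)
  rw [← h4]
  omega

/-- consistency of a flat colouring at the next facet -/
theorem consistent (h : IsShellOrder S f t) (D : CoverData S f Φ v cv) (T : ℕ) (c : ι → C)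
    (hc : Flat S f t Φ T c) (y : ι) (hy : y ∈ S) (hyT : t y = T)
    (hK : ∀ i, Closes S f t {v i, v (i + 1)} T → ∃ j, (j = i ∨ j = i + 1) ∧
      ∀ x ∈ S, t x < T → v j ∈ f x → c x = cv j x) :
    ∀ z ∈ S, ∀ z' ∈ S, t z < T → t z' < T → z ≠ z' → Adj f y z → Adj f y z' →
      Φ y z (c z) = Φ y z' (c z') := by
  intro z hz z' hz' hzT hz'T hne h1 h2
  have hcard := common_edge h D hy hz hz' hne h1 h2
  have s1 : f y ∩ f z ∩ f z' ⊆ f y := fun a ha => by
    simp only [Finset.mem_inter] at ha; exact ha.1.1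
  have s2 : f y ∩ f z ∩ f z' ⊆ f z := fun a ha => by
    simp only [Finset.mem_inter] at ha; exact ha.1.2
  have s3 : f y ∩ f z ∩ f z' ⊆ f z' := fun a ha => by
    simp only [Finset.mem_inter] at ha; exact ha.2
  by_cases hKe : ∃ i, f y ∩ f z ∩ f z' = {v i, v (i + 1)}
  · obtain ⟨i, hi⟩ := hKe
    rw [hi] at s1 s2 s3
    obtain ⟨j, hj, hcan⟩ := hK i ⟨y, hy, z, hz, z', hz', hyT, hzT, hz'T, hne, h1, h2, s1, s2, s3⟩
    have hmem : v j ∈ ({v i, v (i + 1)} : Finset V) := by
      rcases hj with rfl | rfl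
      · exact Finset.mem_insert_self _ _
      · exact Finset.mem_insert_of_mem (Finset.mem_singleton_self _)
    rw [hcan z hz hzT (s2 hmem), hcan z' hz' hz'T (s3 hmem)]
    rw [← D.canon j y hy z hz (s1 hmem) (s2 hmem) h1, ← D.canon j y hy z' hz' (s1 hmem) (s3 hmem) h2]
  · push Not at hKe
    obtain ⟨s, hs1, hs2⟩ := D.sec _ hcard hKe y hy s1 (Φ y z (c z))
    have hsz : s z = c z := by
      rw [hs2 z hz y hy s2 s1 h1.symm, hs1]
      exact D.symm z hz y hy h1.symm (c z)
    have hsz' : s z' = c z' := by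
      refine star_prop h (f y ∩ f z ∩ f z') T (fun x => s x = c x) ?_ z hz s2 hzT hsz z' hz' s3 hz'T
      intro a ha b hb haT hbT hsa hsb hab hAa
      rw [hs2 b hb a ha hsb hsa hab.symm, hAa]
      exact (hc b hb a ha hbT haT hab.symm).symm
    rw [← hs1, hs2 y hy z' hz' s1 s3 h2, hsz']

theorem flat_prefix (h : IsShellOrder S f t) (D : CoverData S f Φ v cv) (T0 : ℕ)
    (hT0 : ∀ T < T0, ∀ i, ¬ Closes S f t {v i, v (i + 1)} T) (hcard : T0 ≤ S.card)  :
    ∀ T ≤ T0, ∀ a : C, ∀ g ∈ S, t g < T → ∃ c : ι → C, Flat S f t Φ T c ∧ c g = a := by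
  intro T
  induction T with
  | zero =>
    intro _ a g _ hg
    omega
  | succ T ih =>
    intro hT a g hg hgT
    obtain ⟨y, hy, hyT⟩ := h.surj T (by omega)
    by_cases hgy : g = y
    · by_cases hT1 : T = 0
      · refine ⟨fun _ => a, ?_, rfl⟩
        intro b hb b' hb' hbT hbT' hadj
        have e1 : b = b' := h.inj b hb b' hb' (by omega)
        rw [e1] at hadj
        unfold Adj at hadj
        rw [Finset.inter_self, h.card4 b' hb'] at hadj
        omega
      · obtain ⟨x0, hx0, hx0T⟩ := h.surj 0 (by omega)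
        obtain ⟨z, hz, hzt, -, hadj⟩ := h.shell x0 hx0 y hy (by omega)
        obtain ⟨c, hc, hcz⟩ := ih (by omega) (Φ z y a) z hz (by omega)
        obtain ⟨c', hc', hcc⟩ := extend h D T c hc y hy hyT
          (consistent h D T c hc y hy hyT (fun i hi => absurd hi (hT0 T (by omega) i)))
        refine ⟨c', hc', ?_⟩
        have hzy : z ≠ y := by
          intro e; rw [e] at hzt; omega
        rw [hgy, hc' y hy z hz (by omega) (by omega) hadj.symm, hcc z hzy, hcz]
        exact D.symm y hy z hz hadj.symm a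
    · have hgT' : t g < T := by
        rcases Nat.lt_succ_iff_lt_or_eq.1 hgT with h1 | h1
        · exact h1
        · exact absurd (h.inj g hg y hy (by omega)) hgy
      obtain ⟨c, hc, hcg⟩ := ih (by omega) a g hg hgT'
      obtain ⟨c', hc', hcc⟩ := extend h D T c hc y hy hyT
        (consistent h D T c hc y hy hyT (fun i hi => absurd hi (hT0 T (by omega) i)))
      exact ⟨c', hc', by rw [hcc g hgy, hcg]⟩

/-- The main lemma: if no edge of the cycle closes up to the time of a facet `g` containing the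
edge `v i, v (i+1)`, then the opposite edge closes at a time at which both other edges are
not yet born. -/
theorem main_lemma (h : IsShellOrder S f t) (D : CoverData S f Φ v cv) (i : ZMod 4) (g : ι)
    (hg : g ∈ S) (hgi : ({v i, v (i + 1)} : Finset V) ⊆ f g)
    (H1 : ∀ T ≤ t g, ∀ j, ¬ Closes S f t {v j, v (j + 1)} T) :
    ∃ T, Closes S f t {v (i + 2), v (i + 2 + 1)} T ∧ ¬ Born S f t {v (i + 1), v (i + 1 + 1)} T ∧
      ¬ Born S f t {v (i + 3), v (i + 3 + 1)} T := by
  by_contra hcon
  push Not at hcon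
  have hi0 : v i ∈ f g := hgi (Finset.mem_insert_self _ _)
  have hi1 : v (i + 1) ∈ f g := hgi (Finset.mem_insert_of_mem (Finset.mem_singleton_self _))
  have hagree := D.agree i g hg hi0 hi1
  have hglt := h.lt g hg
  -- canonical values spread over the star of a vertex
  have spread : ∀ (T : ℕ) (c : ι → C), Flat S f t Φ T c → ∀ (j : ZMod 4) (x0 : ι), x0 ∈ S →
      v j ∈ f x0 → t x0 < T → c x0 = cv j x0 → ∀ x ∈ S, t x < T → v j ∈ f x → c x = cv j x := by
    intro T c hc j x0 hx0 hj0 hT0 hc0 x hx hxT hjx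
    refine star_prop h {v j} T (fun x => c x = cv j x) ?_ x0 hx0
      (Finset.singleton_subset_iff.2 hj0) hT0 hc0 x hx (Finset.singleton_subset_iff.2 hjx) hxT
    intro a ha b hb haT hbT hsa hsb hab hAa
    rw [hc b hb a ha hbT haT hab.symm, hAa]
    exact (D.canon j b hb a ha (Finset.singleton_subset_iff.1 hsb)
      (Finset.singleton_subset_iff.1 hsa) hab.symm).symm
  have main : ∀ k, t g + 1 + k ≤ S.card →
      ∃ c : ι → C, Flat S f t Φ (t g + 1 + k) c ∧ c g = cv i g := by
    intro k
    induction k with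
    | zero =>
      intro hk
      exact flat_prefix h D (t g + 1) (fun T hT j => H1 T (by omega) j) hk (t g + 1) (le_refl _)
        (cv i g) g hg (by omega)
    | succ k ih =>
      intro hk
      obtain ⟨c, hc, hcg⟩ := ih (by omega)
      obtain ⟨y, hy, hyT⟩ := h.surj (t g + 1 + k) (by omega)
      have hgy : g ≠ y := by
        intro e; rw [← e] at hyT; omega
      have can0 := spread _ c hc i g hg hi0 (by omega) hcg
      have can1 := spread _ c hc (i + 1) g hg hi1 (by omega) (hcg.trans hagree)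
      have hK : ∀ j, Closes S f t {v j, v (j + 1)} (t g + 1 + k) → ∃ j', (j' = j ∨ j' = j + 1) ∧
          ∀ x ∈ S, t x < t g + 1 + k → v j' ∈ f x → c x = cv j' x := by
        intro j hj
        have hcases : j = i ∨ j = i + 1 ∨ j = i + 2 ∨ j = i + 3 := zmod4_cases i j
        rcases hcases with rfl | rfl | rfl | rfl
        · exact ⟨j, Or.inl rfl, can0⟩
        · exact ⟨i + 1, Or.inl rfl, can1⟩
        · by_cases hb : Born S f t {v (i + 1), v (i + 1 + 1)} (t g + 1 + k)
          · obtain ⟨x, hx, hxe, hxT⟩ := hb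
            have m1 : v (i + 1) ∈ f x := hxe (Finset.mem_insert_self _ _)
            have m2 : v (i + 1 + 1) ∈ f x :=
              hxe (Finset.mem_insert_of_mem (Finset.mem_singleton_self _))
            have c1 := can1 x hx hxT m1
            have c2 := D.agree (i + 1) x hx m1 m2
            have e12 : i + 1 + 1 = i + 2 := by ring
            rw [e12] at m2 c2
            exact ⟨i + 2, Or.inl rfl, spread _ c hc (i + 2) x hx m2 hxT (c1.trans c2)⟩
          · have hb3 := hcon (t g + 1 + k) hj hb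
            obtain ⟨x, hx, hxe, hxT⟩ := hb3
            have m1 : v (i + 3) ∈ f x := hxe (Finset.mem_insert_self _ _)
            have m2 : v (i + 3 + 1) ∈ f x :=
              hxe (Finset.mem_insert_of_mem (Finset.mem_singleton_self _))
            have c2 := D.agree (i + 3) x hx m1 m2
            have e31 : i + 3 + 1 = i := zmod4_wrap i
            rw [e31] at m2 c2
            have c1 := can0 x hx hxT m2
            have e21 : i + 2 + 1 = i + 3 := by ring
            exact ⟨i + 2 + 1, Or.inr rfl, by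
              rw [e21]
              exact spread _ c hc (i + 3) x hx m1 hxT (c1.trans c2.symm)⟩
        · refine ⟨i + 3 + 1, Or.inr rfl, ?_⟩
          have e31 : i + 3 + 1 = i := zmod4_wrap i
          rw [e31]
          exact can0
      obtain ⟨c', hc', hcc⟩ := extend h D _ c hc y hy hyT (consistent h D _ c hc y hy hyT hK)
      exact ⟨c', hc', by rw [hcc g hgy, hcg]⟩
  obtain ⟨c, hc, -⟩ := main (S.card - (t g + 1)) (by omega)
  apply D.noglobal
  refine ⟨c, ?_⟩
  intro y hy z hz hadj
  have hy' := h.lt y hy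
  have hz' := h.lt z hz
  exact hc y hy z hz (by omega) (by omega) hadj

theorem four_cycle (h : IsShellOrder S f t) (D : CoverData S f Φ v cv) :
    ∃ i : ZMod 4,
      (CB S f t {v i, v (i + 1)} {v (i + 1), v (i + 1 + 1)} ∧
       CB S f t {v i, v (i + 1)} {v (i + 3), v (i + 3 + 1)}) ∧
      (CB S f t {v (i + 2), v (i + 2 + 1)} {v (i + 1), v (i + 1 + 1)} ∧
       CB S f t {v (i + 2), v (i + 2 + 1)} {v (i + 3), v (i + 3 + 1)}) := by
  classical
  by_cases hex : ∃ T, ∃ i, Closes S f t {v i, v (i + 1)} T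
  · have hspec := Nat.find_spec hex
    have hmin : ∀ T < Nat.find hex, ∀ j, ¬ Closes S f t {v j, v (j + 1)} T :=
      fun T hT j hj => Nat.find_min hex hT ⟨j, hj⟩
    obtain ⟨i, hi⟩ := hspec
    obtain ⟨y, hy, z, hz, z', hz', h3, h4, h5, h6, h7, h8, h9, h10, h11⟩ := id hi
    obtain ⟨T2, hT2, hb1, hb3⟩ := main_lemma h D i z hz h10 (fun T hT j => hmin T (by omega) j)
    have hle : Nat.find hex ≤ T2 := Nat.find_min' hex ⟨i + 2, hT2⟩
    refine ⟨i, ⟨⟨_, hi, ?_⟩, ⟨_, hi, ?_⟩⟩, ⟨T2, hT2, hb1⟩, ⟨T2, hT2, hb3⟩⟩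
    · rintro ⟨x, hx, hxe, hxT⟩
      exact hb1 ⟨x, hx, hxe, by omega⟩
    · rintro ⟨x, hx, hxe, hxT⟩
      exact hb3 ⟨x, hx, hxe, by omega⟩
  · exfalso
    push Not at hex
    obtain ⟨g, hg, hgi⟩ := D.edge 0
    obtain ⟨T2, hT2, -, -⟩ := main_lemma h D 0 g hg hgi (fun T _ j => hex T j)
    exact hex T2 _ hT2

/-- In a shelling order, along a knotted 4-cycle `p, m, q, m'` the edges close alternately. -/
theorem alternate (h : IsShellOrder S f t) (D : CoverData S f Φ v cv) :
    (CB S f t {v 0, v 1} {v 1, v 2} ∧ CB S f t {v 2, v 3} {v 3, v 0}) ∨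
    (CB S f t {v 1, v 2} {v 0, v 1} ∧ CB S f t {v 3, v 0} {v 2, v 3}) := by
  obtain ⟨i, ⟨h1, h2⟩, h3, h4⟩ := four_cycle h D
  fin_cases i
  · left
    exact ⟨h1, h4⟩
  · right
    exact ⟨h2, h3⟩
  · left
    exact ⟨h4, h1⟩
  · right
    exact ⟨h3, h2⟩

end Obstruction

end Pool.Agent.Lib.MP_7470ba_co
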