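import Pool.Agent.Lib.MP_7470ba_co.Masks
import Pool.Agent.Lib.MP_7470ba_co.Obstruction

/-!
# Boolean checks for the covering data
-/

namespace Pool.Agent.Lib.MP_7470ba_co

/-- table lookup -/
def lk {α : Type} : List (ℕ × α) → ℕ → α → α
  | [], _, d => d
  | (a, b) :: l, k, d => match Nat.beq a k with
    | true => b
    | false => lk l k d

/-- apply a map of `Fin 3` given by its base 3 code -/
def ap (p : ℕ) (a : Fin 3) : Fin 3 := ⟨(p / 3 ^ a.val) % 3, Nat.mod_lt _ (by norm_num)⟩

/-- covering data: `vs` the four vertices of the cycle, `phi` the nontrivial transition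
permutations on triangles, `cvs` the canonical sections over the stars of the four vertices, `secs`
the sections over stars of edges, `l1`, `l2` two closed walks at `x0`. -/
structure CD where
  vs : List ℕ
  phi : List (ℕ × (ℕ × ℕ))
  cvs : List (List (ℕ × ℕ))
  secs : List (ℕ × List (ℕ × ℕ))
  x0 : ℕ
  l1 : List ℕ
  l2 : List ℕ

namespace CD

variable (c : CD)

/-- transition maps -/
def Phi (x y : ℕ) (a : Fin 3) : Fin 3 :=
  if x < y then ap (lk c.phi (x &&& y) (21, 21)).1 a else ap (lk c.phi (x &&& y) (21, 21)).2 a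

/-- vertices of the cycle, as numbers -/
def vn (k : ℕ) : ℕ := c.vs.getD k 0

/-- vertices of the cycle -/
def v (i : ZMod 4) : Fin 18 := ⟨c.vn i.val % 18, Nat.mod_lt _ (by norm_num)⟩

/-- canonical sections, by number -/
def cvn (k x : ℕ) : Fin 3 := ⟨lk (c.cvs.getD k []) x 0 % 3, Nat.mod_lt _ (by norm_num)⟩

/-- canonical sections -/
def cv (i : ZMod 4) (x : ℕ) : Fin 3 := c.cvn i.val x

/-- composition of transition maps along a walk -/
def hol : ℕ → List ℕ → Fin 3 → Fin 3
  | _, [], a => a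
  | x, y :: l, a => c.Phi x y (hol y l a)

end CD

/-- last point of a walk -/
def lastOf : ℕ → List ℕ → ℕ
  | x, [] => x
  | _, y :: l => lastOf y l

/-- walks of adjacent facets -/
def walkOK (FL : List ℕ) : ℕ → List ℕ → Bool
  | x, [] => FL.contains x
  | x, y :: l => FL.contains x && (pc (x &&& y) == 3) && walkOK FL y l

/-- the table of neighbours is complete -/
def nbOK (FL : List ℕ) (NB : List (ℕ × List ℕ)) : Bool :=
  FL.all fun x => FL.all fun y => !(pc (x &&& y) == 3) || (lk NB x []).contains y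

/-- all ordered pairs of adjacent facets satisfy `Q` -/
def adjAll (FL : List ℕ) (NB : List (ℕ × List ℕ)) (Q : ℕ → ℕ → Bool) : Bool :=
  FL.all fun x => (lk NB x []).all fun y => Q x y

/-- quantifier over `Fin 3` -/
def all3 (Q : Fin 3 → Bool) : Bool := Q 0 && Q 1 && Q 2

theorem all3_iff (Q : Fin 3 → Bool) : all3 Q = true ↔ ∀ a, Q a = true := by
  unfold all3
  rw [Bool.and_eq_true, Bool.and_eq_true]
  constructor
  · rintro ⟨⟨h0, h1⟩, h2⟩ a
    fin_cases a
    · exact h0
    · exact h1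
    · exact h2
  · intro h
    exact ⟨⟨h 0, h 1⟩, h 2⟩

/-- quantifier over `0, 1, 2, 3` -/
def all4 (Q : ℕ → Bool) : Bool := Q 0 && Q 1 && Q 2 && Q 3

theorem all4_iff (Q : ℕ → Bool) : all4 Q = true ↔ ∀ k < 4, Q k = true := by
  unfold all4
  rw [Bool.and_eq_true, Bool.and_eq_true, Bool.and_eq_true]
  constructor
  · rintro ⟨⟨⟨h0, h1⟩, h2⟩, h3⟩ k hk
    interval_cases k
    · exact h0
    · exact h1
    · exact h2
    · exact h3
  · intro h
    exact ⟨⟨⟨h 0 (by norm_num), h 1 (by norm_num)⟩, h 2 (by norm_num)⟩, h 3 (by norm_num)⟩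

/-- two different neighbours give different triangles -/
def pseudoOK (FL : List ℕ) (NB : List (ℕ × List ℕ)) : Bool :=
  FL.all fun y => (lk NB y []).all fun z => (lk NB y []).all fun z' =>
    !(y &&& z == y &&& z') || z == z'

namespace CD

variable (c : CD) (FL : List ℕ) (NB : List (ℕ × List ℕ))

/-- the vertices are below 18 -/
def vsOK : Bool := all4 fun k => Nat.blt (c.vn k) 18

/-- the two transition maps are inverse to each other -/
def symmOK : Bool := adjAll FL NB fun x y => all3 fun a => c.Phi x y (c.Phi y x a) == a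

/-- mask of the cycle edge number `k` -/
def ke (k : ℕ) : ℕ := 2 ^ c.vn k ||| 2 ^ c.vn ((k + 1) % 4)

/-- sections over the star of one edge -/
def secOK1 (em : ℕ) : Bool :=
  (em == c.ke 0 || em == c.ke 1 || em == c.ke 2 || em == c.ke 3) ||
  FL.all fun x => !(em &&& x == em) ||
    ((all3 fun a => (ap (lk (lk c.secs em []) x 21) 0 == a) ||
      (ap (lk (lk c.secs em []) x 21) 1 == a) || (ap (lk (lk c.secs em []) x 21) 2 == a)) &&
    (lk NB x []).all fun y => !(em &&& y == em) || all3 fun k =>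
      ap (lk (lk c.secs em []) x 21) k == c.Phi x y (ap (lk (lk c.secs em []) y 21) k))

/-- sections over the stars of all edges -/
def secOK : Bool := (List.range 18).all fun i => (List.range 18).all fun j =>
  !(Nat.blt i j) || c.secOK1 FL NB (2 ^ i ||| 2 ^ j)

/-- canonical sections are sections -/
def canonOK : Bool := adjAll FL NB fun x y => all4 fun k =>
  !(x.testBit (c.vn k)) || !(y.testBit (c.vn k)) || c.cvn k x == c.Phi x y (c.cvn k y)

/-- canonical sections agree on the stars of the cycle edges -/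
def agreeOK : Bool := FL.all fun x => all4 fun k =>
  !(x.testBit (c.vn k)) || !(x.testBit (c.vn ((k + 1) % 4))) || c.cvn k x == c.cvn ((k + 1) % 4) x

/-- the cycle edges are edges -/
def edgeOK : Bool := all4 fun k => FL.any fun x =>
  x.testBit (c.vn k) && x.testBit (c.vn ((k + 1) % 4))

/-- the two loops have no common fixed point -/
def loopOK : Bool := walkOK FL c.x0 c.l1 && walkOK FL c.x0 c.l2 &&
  (lastOf c.x0 c.l1 == c.x0) && (lastOf c.x0 c.l2 == c.x0) &&
  all3 fun a => !(c.hol c.x0 c.l1 a == a && c.hol c.x0 c.l2 a == a)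

/-- all checks -/
def ok : Bool := c.vsOK && c.symmOK FL NB && c.secOK FL NB && c.canonOK FL NB && c.agreeOK FL &&
  c.edgeOK FL && c.loopOK FL

end CD

/-- the set of facets, as masks -/
def fs (FL : List ℕ) : Finset ℕ := FL.toFinset

theorem adj_iff (x y : ℕ) : Adj toF x y ↔ pc (x &&& y) = 3 := by
  unfold Adj
  rw [← toF_and, card_toF]

theorem nb_of_adj {FL : List ℕ} {NB : List (ℕ × List ℕ)} (h : nbOK FL NB = true) {x y : ℕ}
    (hx : x ∈ fs FL) (hy : y ∈ fs FL) (hxy : Adj toF x y) : y ∈ lk NB x [] := by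
  unfold nbOK at h
  simp only [List.all_eq_true, Bool.or_eq_true, Bool.not_eq_true', beq_eq_false_iff_ne,
    List.contains_iff_mem] at h
  rcases h x (List.mem_toFinset.1 hx) y (List.mem_toFinset.1 hy) with h1 | h1
  · exact absurd ((adj_iff x y).1 hxy) h1
  · exact h1

theorem adjAll_spec {FL : List ℕ} {NB : List (ℕ × List ℕ)} (h : nbOK FL NB = true)
    {Q : ℕ → ℕ → Bool} (hQ : adjAll FL NB Q = true) {x y : ℕ} (hx : x ∈ fs FL) (hy : y ∈ fs FL)
    (hxy : Adj toF x y) : Q x y = true := by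
  unfold adjAll at hQ
  simp only [List.all_eq_true] at hQ
  exact hQ x (List.mem_toFinset.1 hx) y (nb_of_adj h hx hy hxy)

theorem zval_lt : ∀ i : ZMod 4, i.val < 4 := by decide

theorem zval_succ : ∀ i : ZMod 4, (i + 1).val = (i.val + 1) % 4 := by decide

theorem walk_hol (c : CD) {FL : List ℕ} (col : ℕ → Fin 3)
    (hcol : ∀ y ∈ fs FL, ∀ z ∈ fs FL, Adj toF y z → col y = c.Phi y z (col z)) :
    ∀ (l : List ℕ) (x : ℕ), walkOK FL x l = true → x ∈ fs FL ∧ col x = c.hol x l (col (lastOf x l)) := by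
  intro l
  induction l with
  | nil =>
    intro x hx
    simp only [walkOK, List.contains_iff_mem] at hx
    exact ⟨List.mem_toFinset.2 hx, rfl⟩
  | cons y l ih =>
    intro x hx
    simp only [walkOK, Bool.and_eq_true, List.contains_iff_mem, beq_iff_eq] at hx
    obtain ⟨⟨h1, h2⟩, h3⟩ := hx
    obtain ⟨h4, h5⟩ := ih y h3
    have h6 : x ∈ fs FL := List.mem_toFinset.2 h1
    refine ⟨h6, ?_⟩
    have h7 := hcol x h6 y h4 ((adj_iff x y).2 h2)
    rw [h7, h5]
    rfl

theorem toF_pair (a b : Fin 18) : toF (2 ^ a.val ||| 2 ^ b.val) = {a, b} := by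
  ext i
  rw [mem_toF, Nat.testBit_or, Nat.testBit_two_pow, Nat.testBit_two_pow, Finset.mem_insert,
    Finset.mem_singleton]
  simp only [Bool.or_eq_true, decide_eq_true_eq]
  constructor
  · rintro (h | h)
    · exact Or.inl (Fin.ext h.symm)
    · exact Or.inr (Fin.ext h.symm)
  · rintro (h | h)
    · exact Or.inl (by rw [h])
    · exact Or.inr (by rw [h])

theorem sec_spec (c : CD) {FL : List ℕ} {NB : List (ℕ × List ℕ)} (hNB : nbOK FL NB = true)
    (hv : c.vsOK = true) (h : c.secOK FL NB = true) (a b : Fin 18) (hab : a < b)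
    (hK : ∀ i, ({a, b} : Finset (Fin 18)) ≠ {c.v i, c.v (i + 1)}) :
    ∀ x ∈ fs FL, ({a, b} : Finset (Fin 18)) ⊆ toF x → ∀ k : Fin 3, ∃ s : ℕ → Fin 3, s x = k ∧
      ∀ y ∈ fs FL, ∀ z ∈ fs FL, ({a, b} : Finset (Fin 18)) ⊆ toF y → {a, b} ⊆ toF z →
        Adj toF y z → s y = c.Phi y z (s z) := by
  unfold CD.secOK at h
  simp only [List.all_eq_true, List.mem_range, Bool.or_eq_true, Bool.not_eq_true'] at h
  have h1 := h a.val a.isLt b.val b.isLt
  have hlt : Nat.blt a.val b.val = true := by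
    rw [Nat.blt_eq]; exact hab
  rcases h1 with h1 | h1
  · rw [hlt] at h1; exact absurd h1 (by decide)
  set em := 2 ^ a.val ||| 2 ^ b.val with hem
  have hlt18 : em < 2 ^ 18 := Nat.or_lt_two_pow (Nat.pow_lt_pow_right (by norm_num) a.isLt)
    (Nat.pow_lt_pow_right (by norm_num) b.isLt)
  have hset : toF em = {a, b} := toF_pair a b
  rw [← hset] at hK ⊢
  unfold CD.vsOK at hv
  rw [all4_iff] at hv
  simp only [Nat.blt_eq] at hv
  have hke : ∀ i : ZMod 4, em ≠ c.ke i.val := by
    intro i he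
    apply hK i
    rw [he]
    have e1 : (c.v i).val = c.vn i.val := Nat.mod_eq_of_lt (hv _ (zval_lt i))
    have e2 : (c.v (i + 1)).val = c.vn ((i.val + 1) % 4) := by
      have := Nat.mod_eq_of_lt (hv _ (zval_lt (i + 1)))
      rw [← zval_succ]
      exact this
    have e3 := toF_pair (c.v i) (c.v (i + 1))
    rw [e1, e2] at e3
    exact e3
  unfold CD.secOK1 at h1
  simp only [Bool.or_eq_true, beq_iff_eq, List.all_eq_true, Bool.not_eq_true',
    beq_eq_false_iff_ne, Bool.and_eq_true, all3_iff] at h1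
  have hsub : ∀ x, toF em ⊆ toF x → em &&& x = em := fun x hx => and_of_toF_subset hlt18 hx
  rcases h1 with h1 | h1
  · exfalso
    rcases h1 with ((h1 | h1) | h1) | h1
    · exact hke 0 h1
    · exact hke 1 h1
    · exact hke 2 h1
    · exact hke 3 h1
  · intro x hx hxe k
    have h2 := h1 x (List.mem_toFinset.1 hx)
    rcases h2 with h2 | ⟨h2, -⟩
    · exact absurd (hsub x hxe) h2
    have h3 : ∃ j : Fin 3, ap (lk (lk c.secs em []) x 21) j = k := by
      rcases h2 k with (h4 | h4) | h4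
      · exact ⟨0, h4⟩
      · exact ⟨1, h4⟩
      · exact ⟨2, h4⟩
    obtain ⟨j, hj⟩ := h3
    refine ⟨fun y => ap (lk (lk c.secs em []) y 21) j, hj, ?_⟩
    intro y hy z hz hye hze hyz
    rcases h1 y (List.mem_toFinset.1 hy) with h4 | ⟨-, h4⟩
    · exact absurd (hsub y hye) h4
    · rcases h4 z (nb_of_adj hNB hy hz hyz) with h5 | h5
      · exact absurd (hsub z hze) h5
      · exact h5 j

theorem coverData (c : CD) {FL : List ℕ} {NB : List (ℕ × List ℕ)} (hNB : nbOK FL NB = true)
    (hps : pseudoOK FL NB = true) (hFL : ∀ x ∈ FL, x < 2 ^ 18) (h : c.ok FL NB = true) :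
    CoverData (fs FL) toF c.Phi c.v c.cv := by
  unfold CD.ok at h
  simp only [Bool.and_eq_true] at h
  obtain ⟨⟨⟨⟨⟨⟨hv, hsymm⟩, hsec⟩, hcanon⟩, hagree⟩, hedge⟩, hloop⟩ := h
  have hv' : ∀ i : ZMod 4, (c.v i).val = c.vn i.val := by
    intro i
    unfold CD.vsOK at hv
    rw [all4_iff] at hv
    simp only [Nat.blt_eq] at hv
    exact Nat.mod_eq_of_lt (hv _ (zval_lt i))
  have hbit : ∀ (i : ZMod 4) (x : ℕ), c.v i ∈ toF x ↔ x.testBit (c.vn i.val) = true := by
    intro i x
    rw [mem_toF, hv']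
  refine ⟨?_, ?_, ?_, ?_, ?_, ?_, ?_⟩
  · intro x hx y hy hxy a
    have h1 := adjAll_spec hNB hsymm hx hy hxy
    rw [all3_iff] at h1
    simpa using h1 a
  · intro y hy z hz z' hz' h1 h2 h3
    unfold pseudoOK at hps
    simp only [List.all_eq_true, Bool.or_eq_true, Bool.not_eq_true', beq_eq_false_iff_ne,
      beq_iff_eq] at hps
    rcases hps y (List.mem_toFinset.1 hy) z (nb_of_adj hNB hy hz h1) z' (nb_of_adj hNB hy hz' h2)
      with h4 | h4
    · exfalso
      apply h4
      have hy18 := hFL y (List.mem_toFinset.1 hy)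
      apply toF_inj (lt_of_le_of_lt Nat.and_le_left hy18) (lt_of_le_of_lt Nat.and_le_left hy18)
      rw [toF_and, toF_and, h3]
    · exact h4
  · intro e he hK x hx hex k
    obtain ⟨a, b, hab, rfl⟩ := Finset.card_eq_two.1 he
    rcases lt_or_gt_of_ne hab with hlt | hlt
    · exact sec_spec c hNB hv hsec a b hlt hK x hx hex k
    · rw [Finset.pair_comm a b] at hK hex ⊢
      exact sec_spec c hNB hv hsec b a hlt hK x hx hex k
  · intro i y hy z hz hiy hiz hyz
    have h1 := adjAll_spec hNB hcanon hy hz hyz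
    rw [all4_iff] at h1
    have h2 := h1 i.val (zval_lt i)
    simp only [Bool.or_eq_true, Bool.not_eq_true', beq_iff_eq] at h2
    rw [hbit] at hiy hiz
    rcases h2 with (h2 | h2) | h2
    · rw [hiy] at h2; exact absurd h2 (by decide)
    · rw [hiz] at h2; exact absurd h2 (by decide)
    · exact h2
  · intro i x hx hi hi1
    unfold CD.agreeOK at hagree
    simp only [List.all_eq_true] at hagree
    have h1 := hagree x (List.mem_toFinset.1 hx)
    rw [all4_iff] at h1
    have h2 := h1 i.val (zval_lt i)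
    simp only [Bool.or_eq_true, Bool.not_eq_true', beq_iff_eq] at h2
    rw [hbit] at hi hi1
    rw [zval_succ] at hi1
    rcases h2 with (h2 | h2) | h2
    · rw [hi] at h2; exact absurd h2 (by decide)
    · rw [hi1] at h2; exact absurd h2 (by decide)
    · unfold CD.cv
      rw [zval_succ]
      exact h2
  · intro i
    unfold CD.edgeOK at hedge
    rw [all4_iff] at hedge
    have h1 := hedge i.val (zval_lt i)
    simp only [List.any_eq_true, Bool.and_eq_true] at h1
    obtain ⟨x, hx, h2, h3⟩ := h1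
    refine ⟨x, List.mem_toFinset.2 hx, ?_⟩
    intro j hj
    rw [Finset.mem_insert, Finset.mem_singleton] at hj
    rcases hj with rfl | rfl
    · rw [hbit]; exact h2
    · rw [hbit, zval_succ]; exact h3
  · rintro ⟨col, hcol⟩
    unfold CD.loopOK at hloop
    simp only [Bool.and_eq_true, beq_iff_eq, all3_iff] at hloop
    obtain ⟨⟨⟨⟨h1, h2⟩, h3⟩, h4⟩, h5⟩ := hloop
    obtain ⟨-, h6⟩ := walk_hol c col hcol _ _ h1
    obtain ⟨-, h7⟩ := walk_hol c col hcol _ _ h2
    rw [h3] at h6
    rw [h4] at h7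
    have h8 := h5 (col c.x0)
    rw [← h6, ← h7] at h8
    simp at h8

end Pool.Agent.Lib.MP_7470ba_co
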