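import Pool.Agent.Lib.MP_7470ba_co.Check

/-!
# The explicit complex: sphere, constructible, not shellable
-/

namespace Pool.Agent.Lib.MP_7470ba_co

/-- vertices of the starting simplex -/
def w5 : Fin 5 → Fin 18 := ![3, 13, 14, 16, 17]

theorem base_homeo : Nonempty (Rz (toFF base) ≃ₜ Metric.sphere (0 : EuclideanSpace ℝ (Fin 4)) 1) := by
  have hw : Function.Injective w5 := by decide +kernel
  have h1 : ∀ m ∈ base, ∃ k : Fin 5, ∀ i : Fin 18, m.testBit i.val = true →
      (∃ k', w5 k' = i) ∧ i ≠ w5 k := by decide +kernel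
  have h2 : ∀ k : Fin 5, ∃ m ∈ base, ∀ k' : Fin 5, k' ≠ k → m.testBit (w5 k').val = true := by
    decide +kernel
  refine ⟨(embHomeo w5 hw (toFF base) ?_ ?_).trans tbHomeo⟩
  · intro σ hσ
    obtain ⟨m, hm, rfl⟩ := (mem_toFF _ _).1 hσ
    obtain ⟨k, hk⟩ := h1 m hm
    exact ⟨k, fun i hi => hk i ((mem_toF _ _).1 hi)⟩
  · intro k
    obtain ⟨m, hm, h3⟩ := h2 k
    exact ⟨toF m, (mem_toFF _ _).2 ⟨m, hm, rfl⟩, fun k' hk' => (mem_toF _ _).2 (h3 k' hk')⟩

theorem sphere_homeo :
    Nonempty (Rz (toFF facets) ≃ₜ Metric.sphere (0 : EuclideanSpace ℝ (Fin 4)) 1) := by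
  have h := flips_check
  cases hr : runFlips base flips with
  | none => rw [hr] at h; exact absurd h (by decide)
  | some L =>
    rw [hr] at h
    obtain ⟨e1⟩ := runFlips_homeo flips base L hr
    obtain ⟨e0⟩ := base_homeo
    rw [sameElts_toFF h] at e1
    exact ⟨e1.symm.trans e0⟩

theorem constructible (P : ℕ → Finset (Finset (Fin 18)) → Prop) (h : Closed P) :
    P 4 (toFF facets) := by
  obtain ⟨a1, a2⟩ := shell_constr h 4 (by norm_num) sec0 sec0_check (by decide)
  obtain ⟨b1, b2⟩ := shell_constr h 4 (by norm_num) sec1 sec1_check (by decide)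
  obtain ⟨c1, c2⟩ := shell_constr h 4 (by norm_num) sec2 sec2_check (by decide)
  obtain ⟨d1, d2⟩ := shell_constr h 3 (by norm_num) page page_check (by decide)
  obtain ⟨e1, e2⟩ := shell_constr h 3 (by norm_num) wall wall_check (by decide)
  obtain ⟨f1, f2⟩ := union_constr h 4 (by norm_num) sec0 sec1 page a1 a2 b1 b2 d1 d2 inter01_check
  obtain ⟨g1, g2⟩ := union_constr h 4 (by norm_num) (sec0 ++ sec1) sec2 wall f1 f2 c1 c2 e1 e2
    inter2_check
  rw [sameElts_toFF sectors_check] at g1
  exact g1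

theorem facets_lt : ∀ x ∈ facets, x < 2 ^ 18 := by
  have h := facets_basic
  simp only [List.all_eq_true, Bool.and_eq_true, Nat.blt_eq] at h
  exact fun x hx => (h x hx).1

theorem facets_card4 : ∀ x ∈ facets, (toF x).card = 4 := by
  have h := facets_basic
  simp only [List.all_eq_true, Bool.and_eq_true, beq_iff_eq] at h
  exact fun x hx => by rw [card_toF]; exact (h x hx).2

/-- no shelling order -/
theorem no_order (t : ℕ → ℕ) (h : IsShellOrder (fs facets) toF t) : False := by
  have h1 := alternate h (coverData cd01 nb_check pseudo_check facets_lt cd01_check)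
  have h2 := alternate h (coverData cd02 nb_check pseudo_check facets_lt cd02_check)
  have h3 := alternate h (coverData cd12 nb_check pseudo_check facets_lt cd12_check)
  have a0 : cd01.v 0 = 0 := by decide
  have a1 : cd01.v 1 = 2 := by decide
  have a2 : cd01.v 2 = 1 := by decide
  have a3 : cd01.v 3 = 3 := by decide
  have b0 : cd02.v 0 = 0 := by decide
  have b1 : cd02.v 1 = 2 := by decide
  have b2 : cd02.v 2 = 1 := by decide
  have b3 : cd02.v 3 = 4 := by decide
  have c0 : cd12.v 0 = 0 := by decide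
  have c1 : cd12.v 1 = 3 := by decide
  have c2 : cd12.v 2 = 1 := by decide
  have c3 : cd12.v 3 = 4 := by decide
  rw [a0, a1, a2, a3] at h1
  rw [b0, b1, b2, b3] at h2
  rw [c0, c1, c2, c3] at h3
  have s1 : ({3, 0} : Finset (Fin 18)) = {0, 3} := Finset.pair_comm _ _
  have s2 : ({1, 3} : Finset (Fin 18)) = {3, 1} := Finset.pair_comm _ _
  have s3 : ({4, 0} : Finset (Fin 18)) = {0, 4} := Finset.pair_comm _ _
  have s4 : ({1, 4} : Finset (Fin 18)) = {4, 1} := Finset.pair_comm _ _
  rw [s1, s2] at h1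
  rw [s3, s4] at h2 h3
  rcases h1 with ⟨p1, q1⟩ | ⟨p1, q1⟩
  · -- `2` first type, `3` second type
    rcases h2 with ⟨p2, q2⟩ | ⟨p2, q2⟩
    · rcases h3 with ⟨p3, q3⟩ | ⟨p3, q3⟩
      · exact CB.asymm q1 p3
      · exact CB.asymm q2 q3
    · exact CB.asymm p1 p2
  · rcases h2 with ⟨p2, q2⟩ | ⟨p2, q2⟩
    · exact CB.asymm p1 p2
    · rcases h3 with ⟨p3, q3⟩ | ⟨p3, q3⟩
      · exact CB.asymm q2 q3
      · exact CB.asymm q1 p3

theorem toF_injOn : ∀ x ∈ fs facets, ∀ y ∈ fs facets, toF x = toF y → x = y :=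
  fun x hx y hy h => toF_inj (facets_lt x (List.mem_toFinset.1 hx))
    (facets_lt y (List.mem_toFinset.1 hy)) h

theorem not_shellable (L : List (Finset (Fin 18))) (hL : L.Nodup) (hF : L.toFinset = toFF facets)
    (hsh : ∀ i j : Fin L.length, i < j → ∃ k : Fin L.length, k < j ∧
        L.get i ∩ L.get j ⊆ L.get k ∩ L.get j ∧ (L.get j \ L.get k).card = 1) : False := by
  have hmem : ∀ x, x ∈ fs facets → toF x ∈ L := by
    intro x hx
    rw [← List.mem_toFinset, hF]
    exact (mem_toFF _ _).2 ⟨x, List.mem_toFinset.1 hx, rfl⟩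
  have hcard : L.length = (fs facets).card := by
    rw [← List.toFinset_card_of_nodup hL, hF]
    have h1 : toFF facets = (fs facets).image toF := by
      ext σ
      rw [mem_toFF, Finset.mem_image]
      constructor
      · rintro ⟨m, hm, rfl⟩
        exact ⟨m, List.mem_toFinset.2 hm, rfl⟩
      · rintro ⟨m, hm, rfl⟩
        exact ⟨m, List.mem_toFinset.1 hm, rfl⟩
    rw [h1, Finset.card_image_of_injOn]
    intro x hx y hy h
    exact toF_injOn x hx y hy h
  have hback : ∀ T (hT : T < L.length), ∃ x ∈ fs facets, toF x = L[T] := by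
    intro T hT
    have h1 : L[T] ∈ L := List.getElem_mem hT
    rw [← List.mem_toFinset, hF, mem_toFF] at h1
    obtain ⟨m, hm, h2⟩ := h1
    exact ⟨m, List.mem_toFinset.2 hm, h2⟩
  apply no_order (fun x => L.idxOf (toF x))
  have hidx : ∀ x ∈ fs facets, L.idxOf (toF x) < L.length := fun x hx =>
    List.idxOf_lt_length_iff.2 (hmem x hx)
  have hget : ∀ x (hx : x ∈ fs facets), L[L.idxOf (toF x)]'(hidx x hx) = toF x := fun x hx =>
    List.getElem_idxOf (hidx x hx)
  have hidx2 : ∀ T (hT : T < L.length), L.idxOf L[T] = T := fun T hT => hL.idxOf_getElem T hT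
  constructor
  · intro x hx y hy h
    apply toF_injOn x hx y hy
    rw [← hget x hx, ← hget y hy]
    congr 1
  · intro x hx
    rw [← hcard]; exact hidx x hx
  · intro T hT
    rw [← hcard] at hT
    obtain ⟨x, hx, h1⟩ := hback T hT
    refine ⟨x, hx, ?_⟩
    rw [h1]
    exact hidx2 T hT
  · intro x hx
    exact facets_card4 x (List.mem_toFinset.1 hx)
  · intro x hx y hy hlt
    obtain ⟨k, hk1, hk2, hk3⟩ := hsh ⟨_, hidx x hx⟩ ⟨_, hidx y hy⟩ hlt
    obtain ⟨z, hz, h1⟩ := hback k.val k.isLt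
    simp only [List.get_eq_getElem] at hk2 hk3
    rw [hget x hx, hget y hy, ← h1] at hk2
    rw [hget y hy, ← h1] at hk3
    refine ⟨z, hz, ?_, ?_, ?_⟩
    · rw [h1]
      rw [hidx2 k.val k.isLt]
      exact hk1
    · exact hk2.trans Finset.inter_subset_left
    · unfold Adj
      have h2 := Finset.card_sdiff_add_card_inter (toF y) (toF z)
      rw [facets_card4 y (List.mem_toFinset.1 hy)] at h2
      rw [Finset.inter_comm]
      omega

end Pool.Agent.Lib.MP_7470ba_co
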