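import Pool.Agent.Lib.MP_7470ba_co.Masks

/-!
# Bistellar flips are homeomorphisms
-/

namespace Pool.Agent.Lib.MP_7470ba_co

section Real

variable {n : ℕ}

/-- geometric realization -/
def Rz (F : Finset (Finset (Fin n))) : Set (Fin n → ℝ) :=
  {x : Fin n → ℝ | (∀ i, 0 ≤ x i) ∧ ∑ i, x i = 1 ∧ ∃ σ ∈ F, ∀ i, x i ≠ 0 → i ∈ σ}

/-- one half of the flip conditions -/
structure HalfFlip (F F' : Finset (Finset (Fin n))) (A B : Finset (Fin n)) : Prop where
  one : ∀ σ ∈ F, A ⊆ σ → ∃ b ∈ B, σ ⊆ (A ∪ B).erase b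
  two : ∀ σ ∈ F, ¬ A ⊆ σ → ∃ σ' ∈ F', σ ⊆ σ'
  three : ∀ a ∈ A, ∃ σ' ∈ F', (A ∪ B).erase a ⊆ σ'
  four : ∀ σ ∈ F, ¬ B ⊆ σ

/-- the flip map -/
noncomputable def flipMap (A B : Finset (Fin n)) (hA : A.Nonempty) (x : Fin n → ℝ) : Fin n → ℝ :=
  fun i => x i - (if i ∈ A then A.inf' hA x else 0) +
    (if i ∈ B then (A.card / B.card : ℝ) * A.inf' hA x else 0)

theorem flipMap_continuous (A B : Finset (Fin n)) (hA : A.Nonempty) :
    Continuous (flipMap A B hA) := by
  have hc : Continuous (fun x : Fin n → ℝ => A.inf' hA x) := by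
    have h1 : (fun x : Fin n → ℝ => A.inf' hA x) = fun x => A.inf' hA (fun i => x i) := rfl
    rw [h1]
    exact Continuous.finset_inf'_apply hA (fun i _ => continuous_apply i)
  apply continuous_pi
  intro i
  unfold flipMap
  refine Continuous.add (Continuous.sub (continuous_apply i) ?_) ?_
  · split_ifs
    · exact hc
    · exact continuous_const
  · split_ifs
    · exact continuous_const.mul hc
    · exact continuous_const

theorem flipMap_sum (A B : Finset (Fin n)) (hA : A.Nonempty) (hB : B.Nonempty) (x : Fin n → ℝ) :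
    ∑ i, flipMap A B hA x i = ∑ i, x i := by
  unfold flipMap
  rw [Finset.sum_add_distrib, Finset.sum_sub_distrib]
  rw [Finset.sum_ite_mem, Finset.sum_ite_mem, Finset.univ_inter, Finset.univ_inter,
    Finset.sum_const, Finset.sum_const, nsmul_eq_mul, nsmul_eq_mul]
  have hb : (B.card : ℝ) ≠ 0 := by
    have := Finset.card_pos.2 hB
    positivity
  field_simp
  ring

theorem flipMap_mapsTo {F F' : Finset (Finset (Fin n))} {A B : Finset (Fin n)} (hA : A.Nonempty)
    (hB : B.Nonempty) (hAB : Disjoint A B) (H : HalfFlip F F' A B) (x : Fin n → ℝ) (hx : x ∈ Rz F) :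
    flipMap A B hA x ∈ Rz F' := by
  obtain ⟨h0, h1, σ, hσ, h2⟩ := hx
  have hmin0 : 0 ≤ A.inf' hA x := Finset.le_inf' _ _ (fun i _ => h0 i)
  obtain ⟨a, ha, hamin⟩ := Finset.exists_mem_eq_inf' hA x
  refine ⟨?_, ?_, ?_⟩
  · intro i
    unfold flipMap
    have e1 : 0 ≤ (if i ∈ B then (A.card / B.card : ℝ) * A.inf' hA x else 0) := by
      split_ifs
      · positivity
      · exact le_refl _
    have e2 : 0 ≤ x i - (if i ∈ A then A.inf' hA x else 0) := by
      split_ifs with h
      · have := Finset.inf'_le x h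
        linarith
      · simpa using h0 i
    linarith
  · rw [flipMap_sum A B hA hB, h1]
  · by_cases hm : A.inf' hA x = 0
    · have hid : flipMap A B hA x = x := by
        ext i
        unfold flipMap
        rw [hm]
        simp
      rw [hid]
      by_cases hAσ : A ⊆ σ
      · obtain ⟨b, hb, hbσ⟩ := H.one σ hσ hAσ
        obtain ⟨σ', hσ', h3⟩ := H.three a ha
        refine ⟨σ', hσ', fun i hi => h3 ?_⟩
        have h4 := hbσ (h2 i hi)
        rw [Finset.mem_erase] at h4 ⊢
        refine ⟨?_, h4.2⟩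
        rintro rfl
        rw [hm] at hamin
        exact hi hamin.symm
      · obtain ⟨σ', hσ', h3⟩ := H.two σ hσ hAσ
        exact ⟨σ', hσ', fun i hi => h3 (h2 i hi)⟩
    · have hpos : 0 < A.inf' hA x := lt_of_le_of_ne hmin0 (Ne.symm hm)
      have hAσ : A ⊆ σ := by
        intro i hi
        apply h2
        have := Finset.inf'_le x hi
        intro h
        linarith
      obtain ⟨b, hb, hbσ⟩ := H.one σ hσ hAσ
      obtain ⟨σ', hσ', h3⟩ := H.three a ha
      refine ⟨σ', hσ', fun i hi => h3 ?_⟩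
      rw [Finset.mem_erase]
      constructor
      · rintro rfl
        apply hi
        unfold flipMap
        rw [if_pos ha, if_neg (Finset.disjoint_left.1 hAB ha), ← hamin]
        ring
      · by_contra hiAB
        rw [Finset.mem_union, not_or] at hiAB
        apply hi
        unfold flipMap
        rw [if_neg hiAB.1, if_neg hiAB.2]
        have : x i = 0 := by
          by_contra hxi
          have h4 := hbσ (h2 i hxi)
          rw [Finset.mem_erase, Finset.mem_union] at h4
          exact h4.2.elim hiAB.1 hiAB.2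
        rw [this]
        ring

theorem flipMap_inv {F F' : Finset (Finset (Fin n))} {A B : Finset (Fin n)} (hA : A.Nonempty)
    (hB : B.Nonempty) (hAB : Disjoint A B) (H : HalfFlip F F' A B) (x : Fin n → ℝ) (hx : x ∈ Rz F) :
    flipMap B A hB (flipMap A B hA x) = x := by
  obtain ⟨h0, h1, σ, hσ, h2⟩ := hx
  have hb : (B.card : ℝ) ≠ 0 := by
    have := Finset.card_pos.2 hB
    positivity
  have ha : (A.card : ℝ) ≠ 0 := by
    have := Finset.card_pos.2 hA
    positivity
  have hval : ∀ i ∈ B, flipMap A B hA x i = x i + (A.card / B.card : ℝ) * A.inf' hA x := by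
    intro i hi
    unfold flipMap
    rw [if_pos hi, if_neg (Finset.disjoint_right.1 hAB hi)]
    ring
  have hinf : B.inf' hB (flipMap A B hA x) = (A.card / B.card : ℝ) * A.inf' hA x := by
    apply le_antisymm
    · have h3 := H.four σ hσ
      rw [Finset.not_subset] at h3
      obtain ⟨b, hbB, hbσ⟩ := h3
      have h4 : x b = 0 := by
        by_contra hxb
        exact hbσ (h2 b hxb)
      have h5 := Finset.inf'_le (flipMap A B hA x) hbB
      rw [hval b hbB, h4, zero_add] at h5
      exact h5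
    · apply Finset.le_inf'
      intro i hi
      rw [hval i hi]
      have := h0 i
      linarith
  ext i
  have e : flipMap B A hB (flipMap A B hA x) i = flipMap A B hA x i -
    (if i ∈ B then B.inf' hB (flipMap A B hA x) else 0) +
    (if i ∈ A then (B.card / A.card : ℝ) * B.inf' hB (flipMap A B hA x) else 0) := rfl
  rw [e, hinf]
  unfold flipMap
  have hcc : (B.card / A.card : ℝ) * ((A.card / B.card : ℝ) * A.inf' hA x) = A.inf' hA x := by
    field_simp
  rw [hcc]
  ring

/-- a flip does not change the homeomorphism type -/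
noncomputable def flipHomeo {F F' : Finset (Finset (Fin n))} {A B : Finset (Fin n)}
    (hA : A.Nonempty) (hB : B.Nonempty) (hAB : Disjoint A B) (H : HalfFlip F F' A B)
    (H' : HalfFlip F' F B A) : Rz F ≃ₜ Rz F' where
  toFun x := ⟨flipMap A B hA x.1, flipMap_mapsTo hA hB hAB H x.1 x.2⟩
  invFun y := ⟨flipMap B A hB y.1, flipMap_mapsTo hB hA hAB.symm H' y.1 y.2⟩
  left_inv x := Subtype.ext (flipMap_inv hA hB hAB H x.1 x.2)
  right_inv y := Subtype.ext (flipMap_inv hB hA hAB.symm H' y.1 y.2)
  continuous_toFun := by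
    exact Continuous.subtype_mk ((flipMap_continuous A B hA).comp continuous_subtype_val) _
  continuous_invFun := by
    exact Continuous.subtype_mk ((flipMap_continuous B A hB).comp continuous_subtype_val) _

end Real

/-- the bits of a mask, among the first 18 -/
def bitsOf (m : ℕ) : List ℕ := (List.range 18).filter (fun i => m.testBit i)

/-- the mask `m` with the bit `i` removed, if present -/
def del (m i : ℕ) : ℕ := if m.testBit i then m ^^^ (2 ^ i) else m

theorem mem_bitsOf {m i : ℕ} : i ∈ bitsOf m ↔ i < 18 ∧ m.testBit i = true := by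
  simp [bitsOf]

theorem toF_del (m : ℕ) (i : Fin 18) : toF (del m i.val) = (toF m).erase i := by
  ext j
  rw [mem_toF, Finset.mem_erase, mem_toF, del]
  by_cases hi : m.testBit i.val = true
  · rw [if_pos hi, Nat.testBit_xor, Nat.testBit_two_pow]
    by_cases hij : i = j
    · subst hij
      simp [hi]
    · have : i.val ≠ j.val := fun h => hij (Fin.ext h)
      simp [this, Ne.symm hij]
  · rw [if_neg hi]
    constructor
    · intro h
      refine ⟨?_, h⟩
      rintro rfl
      exact hi h
    · exact fun h => h.2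

/-- perform a flip on a list of masks -/
def flipStep (L : List ℕ) (A B : ℕ) : List ℕ :=
  (L.filter fun m => !(m &&& A == A)) ++ ((bitsOf A).map fun a => del (A ||| B) a)

/-- check that the flip is admissible -/
def flipOK (L : List ℕ) (A B : ℕ) : Bool :=
  (A < 2 ^ 18) && (B < 2 ^ 18) && !(A == 0) && !(B == 0) && (A &&& B == 0) &&
  (L.all fun m => !(m &&& B == B) && (!(m &&& A == A) || (bitsOf B).any fun b =>
    m == del (A ||| B) b)) &&
  ((bitsOf B).all fun b => L.contains (del (A ||| B) b))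

theorem toF_nonempty {A : ℕ} (h : A < 2 ^ 18) (h0 : A ≠ 0) : (toF A).Nonempty := by
  rw [Finset.nonempty_iff_ne_empty]
  intro he
  apply h0
  apply toF_inj h (by norm_num)
  rw [he]
  ext i
  simp [mem_toF]

theorem sub_iff {A m : ℕ} (h : A < 2 ^ 18) : toF A ⊆ toF m ↔ m &&& A = A := by
  constructor
  · intro h1
    rw [Nat.and_comm]
    exact and_of_toF_subset h h1
  · intro h1
    rw [Nat.and_comm] at h1
    exact toF_subset_of_and h1

theorem flip_homeo (L : List ℕ) (A B : ℕ) (h : flipOK L A B = true) :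
    Nonempty (Rz (toFF L) ≃ₜ Rz (toFF (flipStep L A B))) := by
  unfold flipOK at h
  simp only [Bool.and_eq_true, decide_eq_true_eq, Bool.not_eq_true', beq_eq_false_iff_ne,
    beq_iff_eq, List.all_eq_true, Bool.or_eq_true, List.any_eq_true, List.contains_iff_mem] at h
  obtain ⟨⟨⟨⟨⟨⟨hA, hB⟩, hA0⟩, hB0⟩, hAB⟩, hL⟩, hBL⟩ := h
  have hAne := toF_nonempty hA hA0
  have hBne := toF_nonempty hB hB0
  have hdis : Disjoint (toF A) (toF B) := by
    rw [Finset.disjoint_iff_inter_eq_empty, ← toF_and, hAB]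
    ext i
    simp [mem_toF]
  have hmem : ∀ σ, σ ∈ toFF (flipStep L A B) ↔ (∃ m ∈ L, toF m = σ ∧ ¬ toF A ⊆ σ) ∨
      ∃ a ∈ toF A, σ = (toF A ∪ toF B).erase a := by
    intro σ
    rw [mem_toFF]
    constructor
    · rintro ⟨m, hm, rfl⟩
      unfold flipStep at hm
      rw [List.mem_append, List.mem_filter, List.mem_map] at hm
      rcases hm with ⟨h1, h2⟩ | ⟨a, ha, rfl⟩
      · left
        refine ⟨m, h1, rfl, ?_⟩
        rw [sub_iff hA]
        simpa using h2
      · right
        obtain ⟨h1, h2⟩ := mem_bitsOf.1 ha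
        refine ⟨⟨a, h1⟩, (mem_toF _ _).2 h2, ?_⟩
        rw [← toF_or]
        exact toF_del (A ||| B) ⟨a, h1⟩
    · rintro (⟨m, hm, rfl, h1⟩ | ⟨a, ha, rfl⟩)
      · refine ⟨m, ?_, rfl⟩
        unfold flipStep
        rw [List.mem_append, List.mem_filter]
        left
        rw [sub_iff hA] at h1
        exact ⟨hm, by simpa using h1⟩
      · refine ⟨del (A ||| B) a.val, ?_, ?_⟩
        · unfold flipStep
          rw [List.mem_append, List.mem_map]
          right
          exact ⟨a.val, mem_bitsOf.2 ⟨a.isLt, (mem_toF _ _).1 ha⟩, rfl⟩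
        · rw [toF_del, toF_or]
  have hB' : ∀ b ∈ toF B, (toF A ∪ toF B).erase b ∈ toFF L := by
    intro b hb
    rw [← toF_or, ← toF_del]
    exact (mem_toFF _ _).2 ⟨_, hBL b.val (mem_bitsOf.2 ⟨b.isLt, (mem_toF _ _).1 hb⟩), rfl⟩
  have H : HalfFlip (toFF L) (toFF (flipStep L A B)) (toF A) (toF B) := by
    constructor
    · intro σ hσ hAσ
      obtain ⟨m, hm, rfl⟩ := (mem_toFF _ _).1 hσ
      rw [sub_iff hA] at hAσ
      rcases (hL m hm).2 with h1 | ⟨b, hb, rfl⟩
      · exact absurd hAσ h1
      · obtain ⟨h1, h2⟩ := mem_bitsOf.1 hb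
        refine ⟨⟨b, h1⟩, (mem_toF _ _).2 h2, ?_⟩
        have h3 := toF_del (A ||| B) ⟨b, h1⟩
        simp only at h3
        rw [h3, toF_or]
    · intro σ hσ hAσ
      obtain ⟨m, hm, rfl⟩ := (mem_toFF _ _).1 hσ
      exact ⟨toF m, (hmem _).2 (Or.inl ⟨m, hm, rfl, hAσ⟩), subset_refl _⟩
    · intro a ha
      exact ⟨_, (hmem _).2 (Or.inr ⟨a, ha, rfl⟩), subset_refl _⟩
    · intro σ hσ
      obtain ⟨m, hm, rfl⟩ := (mem_toFF _ _).1 hσ
      rw [sub_iff hB]
      exact (hL m hm).1
  have H' : HalfFlip (toFF (flipStep L A B)) (toFF L) (toF B) (toF A) := by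
    constructor
    · intro σ hσ hBσ
      rcases (hmem σ).1 hσ with ⟨m, hm, rfl, h1⟩ | ⟨a, ha, rfl⟩
      · exact absurd hBσ (H.four _ ((mem_toFF _ _).2 ⟨m, hm, rfl⟩))
      · exact ⟨a, ha, by rw [Finset.union_comm]⟩
    · intro σ hσ hBσ
      rcases (hmem σ).1 hσ with ⟨m, hm, rfl, h1⟩ | ⟨a, ha, rfl⟩
      · exact ⟨toF m, (mem_toFF _ _).2 ⟨m, hm, rfl⟩, subset_refl _⟩
      · exfalso
        apply hBσ
        intro b hb
        rw [Finset.mem_erase]
        refine ⟨?_, Finset.mem_union_right _ hb⟩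
        rintro rfl
        exact Finset.disjoint_left.1 hdis ha hb
    · intro b hb
      refine ⟨_, hB' b hb, ?_⟩
      rw [Finset.union_comm]
    · intro σ hσ
      rcases (hmem σ).1 hσ with ⟨m, hm, rfl, h1⟩ | ⟨a, ha, rfl⟩
      · exact h1
      · intro h2
        exact Finset.notMem_erase a _ (h2 ha)
  exact ⟨flipHomeo hAne hBne hdis H H'⟩

/-- run a chain of flips, checking each -/
def runFlips : List ℕ → List (ℕ × ℕ) → Option (List ℕ)
  | L, [] => some L
  | L, (A, B) :: fs => if flipOK L A B then runFlips (flipStep L A B) fs else none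

theorem runFlips_homeo : ∀ (fs : List (ℕ × ℕ)) (L L' : List ℕ), runFlips L fs = some L' →
    Nonempty (Rz (toFF L) ≃ₜ Rz (toFF L')) := by
  intro fs
  induction fs with
  | nil =>
    intro L L' h
    simp only [runFlips, Option.some.injEq] at h
    subst h
    exact ⟨Homeomorph.refl _⟩
  | cons p fs ih =>
    intro L L' h
    obtain ⟨A, B⟩ := p
    simp only [runFlips] at h
    split_ifs at h with hok
    · obtain ⟨e1⟩ := flip_homeo L A B hok
      obtain ⟨e2⟩ := ih _ _ h
      exact ⟨e1.trans e2⟩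

end Pool.Agent.Lib.MP_7470ba_co
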