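import Mathlib

/-!
# Finite sets of vertices as bit masks
-/

namespace Pool.Agent.Lib.MP_7470ba_co

/-- the set of vertices encoded by a bit mask -/
def toF (m : ℕ) : Finset (Fin 18) := Finset.univ.filter (fun i => m.testBit i.val = true)

theorem mem_toF (m : ℕ) (i : Fin 18) : i ∈ toF m ↔ m.testBit i.val = true := by
  simp [toF]

theorem toF_and (a b : ℕ) : toF (a &&& b) = toF a ∩ toF b := by
  ext i
  simp [mem_toF, Nat.testBit_and]

theorem toF_or (a b : ℕ) : toF (a ||| b) = toF a ∪ toF b := by
  ext i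
  simp [mem_toF, Nat.testBit_or]

theorem toF_inj {a b : ℕ} (ha : a < 2 ^ 18) (hb : b < 2 ^ 18) (h : toF a = toF b) : a = b := by
  apply Nat.eq_of_testBit_eq
  intro i
  by_cases hi : i < 18
  · have h1 : ((⟨i, hi⟩ : Fin 18) ∈ toF a) ↔ ((⟨i, hi⟩ : Fin 18) ∈ toF b) := by rw [h]
    rw [mem_toF, mem_toF] at h1
    exact Bool.eq_iff_iff.2 h1
  · have h2 : 2 ^ 18 ≤ 2 ^ i := Nat.pow_le_pow_right (by norm_num) (by omega)
    rw [Nat.testBit_lt_two_pow (lt_of_lt_of_le ha h2), Nat.testBit_lt_two_pow (lt_of_lt_of_le hb h2)]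

theorem toF_subset_of_and {a b : ℕ} (h : a &&& b = a) : toF a ⊆ toF b := by
  have h1 := toF_and a b
  rw [h] at h1
  rw [h1]
  exact Finset.inter_subset_right

theorem and_of_toF_subset {a b : ℕ} (ha : a < 2 ^ 18) (h : toF a ⊆ toF b) : a &&& b = a := by
  apply toF_inj (lt_of_le_of_lt Nat.and_le_left ha) ha
  rw [toF_and]
  exact Finset.inter_eq_left.2 h

/-- number of bits among the first `k` -/
def pcf : ℕ → ℕ → ℕ
  | 0, _ => 0
  | k + 1, m => m % 2 + pcf k (m / 2)

/-- number of elements of the encoded set -/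
def pc (m : ℕ) : ℕ := pcf 18 m

theorem pcf_eq : ∀ (k m : ℕ), pcf k m = (Finset.univ.filter (fun i : Fin k => m.testBit i.val = true)).card := by
  intro k
  induction k with
  | zero => intro m; simp [pcf]
  | succ k ih =>
    intro m
    rw [pcf, ih, Fin.card_filter_univ_succ]
    have h1 : ∀ i : Fin k, (m.testBit i.succ.val = true ↔ (m / 2).testBit i.val = true) := by
      intro i
      rw [Fin.val_succ, Nat.testBit_succ]
    have h2 : (Finset.univ.filter (fun i : Fin k => m.testBit i.succ.val = true)) =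
        (Finset.univ.filter (fun i : Fin k => (m / 2).testBit i.val = true)) := by
      ext i; simp only [Finset.mem_filter, Finset.mem_univ, true_and]; exact h1 i
    have h3 : (m.testBit (0 : Fin (k+1)).val = true) ↔ m % 2 = 1 := by
      simp [Nat.testBit_zero]
    rw [h2]
    rcases Nat.mod_two_eq_zero_or_one m with h | h
    · rw [if_neg (by rw [h3]; omega)]; omega
    · rw [if_pos (by rw [h3]; omega)]; omega

theorem card_toF (m : ℕ) : (toF m).card = pc m := by
  rw [pc, pcf_eq]; rfl

/-- the family of vertex sets encoded by a list of masks -/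
def toFF (L : List ℕ) : Finset (Finset (Fin 18)) := (L.map toF).toFinset

theorem mem_toFF (L : List ℕ) (σ : Finset (Fin 18)) : σ ∈ toFF L ↔ ∃ m ∈ L, toF m = σ := by
  simp [toFF]

/-- the mask of a vertex set -/
theorem exists_mask (s : Finset (Fin 18)) : ∃ m < 2 ^ 18, toF m = s := by
  induction s using Finset.induction_on with
  | empty => exact ⟨0, by norm_num, by ext i; simp [mem_toF]⟩
  | insert a s _ ih =>
    obtain ⟨m, hm, rfl⟩ := ih
    refine ⟨m ||| 2 ^ a.val, Nat.or_lt_two_pow hm (Nat.pow_lt_pow_right (by norm_num) a.isLt), ?_⟩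
    ext i
    rw [mem_toF, Nat.testBit_or, Finset.mem_insert, mem_toF, Nat.testBit_two_pow]
    simp only [Bool.or_eq_true, decide_eq_true_eq]
    constructor
    · rintro (h | h)
      · exact Or.inr h
      · exact Or.inl (Fin.ext h.symm)
    · rintro (h | h)
      · right; rw [h]
      · exact Or.inl h

end Pool.Agent.Lib.MP_7470ba_co
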